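import Mathlib

/-!
# Extension complexity of Voronoi cells: definitions
-/

set_option autoImplicit false

namespace Pool.Agent.Helper37.Voronoi

section Polytopes

variable {E : Type*} [NormedAddCommGroup E] [NormedSpace ℝ E]

/-- A polytope: a bounded intersection of finitely many closed half-spaces. -/
def IsPolytope (Q : Set E) : Prop :=
  Bornology.IsBounded Q ∧
    ∃ s : Finset ((E →L[ℝ] ℝ) × ℝ), Q = {x | ∀ c ∈ s, c.1 x ≤ c.2}

/-- A proper face of `Q`: a nonempty exposed subset different from `Q`. -/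
def IsProperFace (Q F : Set E) : Prop := F.Nonempty ∧ F ≠ Q ∧ IsExposed ℝ Q F

/-- The facets of `Q`: its inclusion-maximal proper faces. -/
def facets (Q : Set E) : Set (Set E) := {F | Maximal (IsProperFace Q) F}

/-- Extension complexity: the least number of facets of a polytope (in any dimension) which some
linear map sends onto `P`. -/
noncomputable def xc (P : Set E) : ℕ :=
  sInf {k : ℕ | ∃ (m : ℕ) (Q : Set (EuclideanSpace ℝ (Fin m)))
    (π : EuclideanSpace ℝ (Fin m) →ₗ[ℝ] E),
      IsPolytope Q ∧ (facets Q).encard = k ∧ π '' Q = P}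

end Polytopes

section Lattices

variable {E : Type*} [NormedAddCommGroup E] [InnerProductSpace ℝ E]

/-- The lattice `B ℤ^V` (a lattice with basis indexed by `V` when `B` is injective). -/
def latOf {V : Type*} (B : (V → ℝ) →ₗ[ℝ] E) : Set E :=
  {z | ∃ k : V → ℤ, z = B (fun v => (k v : ℝ))}

/-- The Voronoi cell of `Λ`: the points `x` of the linear hull of `Λ` with `‖x‖ ≤ ‖x - z‖` for all
`z ∈ Λ`. -/
def voronoiCell (Λ : Set E) : Set E :=
  {x | x ∈ Submodule.span ℝ Λ ∧ ∀ z ∈ Λ, ‖x‖ ≤ ‖x - z‖}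

/-- The dual lattice: the points `y` of the linear hull of `Λ` with `⟪y, z⟫ ∈ ℤ` for all
`z ∈ Λ`. -/
def dualLattice (Λ : Set E) : Set E :=
  {y | y ∈ Submodule.span ℝ Λ ∧ ∀ z ∈ Λ, ∃ k : ℤ, inner ℝ y z = (k : ℝ)}

end Lattices

end Pool.Agent.Helper37.Voronoi
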