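import Mathlib
import Pool.Agent.Helper37.Voronoi.Defs

/-!
# Polytopes, facets and extension complexity
-/

set_option autoImplicit false

namespace Pool.Agent.Helper37.Voronoi

open Module

section Desc

variable {E : Type*} [NormedAddCommGroup E] [NormedSpace ℝ E]

/-- solution set of a finite system of inequalities -/
def desc (s : Finset ((E →L[ℝ] ℝ) × ℝ)) : Set E := {x | ∀ c ∈ s, c.1 x ≤ c.2}

lemma convex_desc (s : Finset ((E →L[ℝ] ℝ) × ℝ)) : Convex ℝ (desc s) := by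
  intro x hx y hy a b ha hb hab c hc
  have h1 := hx c hc
  have h2 := hy c hc
  simp only [map_add, map_smul, smul_eq_mul]
  calc a * c.1 x + b * c.1 y ≤ a * c.2 + b * c.2 := by gcongr
    _ = c.2 := by rw [← add_mul, hab, one_mul]

/-- averaging lemma: a nonempty convex set contains a point at which every inequality of a finite
family that is strict somewhere on the set is strict. -/
lemma exists_strict (G : Set E) (hG : Convex ℝ G) (hne : G.Nonempty)
    (t : Finset ((E →L[ℝ] ℝ) × ℝ)) (hle : ∀ x ∈ G, ∀ c ∈ t, c.1 x ≤ c.2) :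
    ∃ x₀ ∈ G, ∀ c ∈ t, (∃ x ∈ G, c.1 x < c.2) → c.1 x₀ < c.2 := by
  classical
  induction t using Finset.induction_on with
  | empty =>
    obtain ⟨x, hx⟩ := hne
    exact ⟨x, hx, by simp⟩
  | insert c t hct ih =>
    obtain ⟨x₀, hx₀, h0⟩ := ih (fun x hx c' hc' => hle x hx c' (Finset.mem_insert_of_mem hc'))
    by_cases hc : ∃ x ∈ G, c.1 x < c.2
    · obtain ⟨x, hx, hlt⟩ := hc
      refine ⟨(1/2 : ℝ) • x₀ + (1/2 : ℝ) • x, hG hx₀ hx (by norm_num) (by norm_num) (by norm_num), ?_⟩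
      intro c' hc' hex
      simp only [map_add, map_smul, smul_eq_mul]
      rcases Finset.mem_insert.1 hc' with rfl | hc'
      · have := hle x₀ hx₀ c' (Finset.mem_insert_self _ _)
        linarith
      · have h1 := h0 c' hc' hex
        have h2 := hle x hx c' (Finset.mem_insert_of_mem hc')
        linarith
    · refine ⟨x₀, hx₀, ?_⟩
      intro c' hc' hex
      rcases Finset.mem_insert.1 hc' with rfl | hc'
      · exact absurd hex hc
      · exact h0 c' hc' hex

/-- a polytope has an irredundant system: implicit equalities `u` and a finite family `t` such that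
distinct members of `t` cut out incomparable faces -/
structure Irred (Q : Set E) (u t : Finset ((E →L[ℝ] ℝ) × ℝ)) : Prop where
  eq : Q = {x | (∀ c ∈ u, c.1 x = c.2) ∧ ∀ c ∈ t, c.1 x ≤ c.2}
  nonempty : ∀ c ∈ t, {x ∈ Q | c.1 x = c.2}.Nonempty
  proper : ∀ c ∈ t, ∃ z ∈ Q, c.1 z < c.2
  incomp : ∀ c ∈ t, ∀ c' ∈ t, {x ∈ Q | c.1 x = c.2} ⊆ {x ∈ Q | c'.1 x = c'.2} → c = c'

lemma exists_irred (s : Finset ((E →L[ℝ] ℝ) × ℝ)) (hne : (desc s).Nonempty) :
    ∃ u t, t ⊆ s ∧ Irred (desc s) u t := by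
  classical
  set Q := desc s with hQ
  let u := s.filter (fun c => ∀ x ∈ Q, c.1 x = c.2)
  let v := s.filter (fun c => ¬ ∀ x ∈ Q, c.1 x = c.2)
  -- subsets of `v` which together with `u` describe `Q`
  let good : Finset (Finset ((E →L[ℝ] ℝ) × ℝ)) :=
    v.powerset.filter (fun t => {x | (∀ c ∈ u, c.1 x = c.2) ∧ ∀ c ∈ t, c.1 x ≤ c.2} ⊆ Q)
  have hv : v ∈ good := by
    simp only [good, Finset.mem_filter, Finset.mem_powerset, subset_refl, true_and]
    intro x hx c hc
    by_cases h : ∀ x ∈ Q, c.1 x = c.2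
    · exact (hx.1 c (Finset.mem_filter.2 ⟨hc, h⟩)).le
    · exact hx.2 c (Finset.mem_filter.2 ⟨hc, h⟩)
  obtain ⟨t, ht, hmin⟩ := Finset.exists_min_image good Finset.card ⟨v, hv⟩
  simp only [good, Finset.mem_filter, Finset.mem_powerset] at ht
  have heq : Q = {x | (∀ c ∈ u, c.1 x = c.2) ∧ ∀ c ∈ t, c.1 x ≤ c.2} := by
    apply Set.Subset.antisymm _ ht.2
    intro x hx
    refine ⟨fun c hc => (Finset.mem_filter.1 hc).2 x hx, fun c hc => ?_⟩
    exact hx c (Finset.mem_filter.1 (ht.1 hc)).1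
  have hstrict : ∀ c ∈ t, ∃ z ∈ Q, c.1 z < c.2 := by
    intro c hc
    have h1 := (Finset.mem_filter.1 (ht.1 hc)).2
    push Not at h1
    obtain ⟨z, hz, hne'⟩ := h1
    exact ⟨z, hz, lt_of_le_of_ne (hz c (Finset.mem_filter.1 (ht.1 hc)).1) hne'⟩
  obtain ⟨z, hz, hzs⟩ := exists_strict Q (convex_desc s) hne t (fun x hx c hc => by
    rw [heq] at hx; exact hx.2 c hc)
  have hzs' : ∀ c ∈ t, c.1 z < c.2 := fun c hc => hzs c hc (hstrict c hc)
  -- crossing points
  have hcross : ∀ c ∈ t, ∃ y ∈ Q, c.1 y = c.2 ∧ ∀ c' ∈ t, c' ≠ c → c'.1 y < c'.2 := by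
    intro c hc
    have hnot : t.erase c ∉ good := by
      intro hg
      have h1 := hmin _ hg
      have h2 := Finset.card_erase_lt_of_mem hc
      omega
    have hsub : t.erase c ⊆ v := (Finset.erase_subset _ _).trans ht.1
    have h3 : ¬ {x | (∀ c ∈ u, c.1 x = c.2) ∧ ∀ c' ∈ t.erase c, c'.1 x ≤ c'.2} ⊆ Q := by
      intro h
      exact hnot (Finset.mem_filter.2 ⟨Finset.mem_powerset.2 hsub, h⟩)
    rw [Set.not_subset] at h3
    obtain ⟨x, ⟨hx1, hx2⟩, hxQ⟩ := h3
    have hxc : c.2 < c.1 x := by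
      by_contra hle
      push Not at hle
      apply hxQ
      rw [heq]
      refine ⟨hx1, fun c' hc' => ?_⟩
      by_cases h : c' = c
      · rw [h]; exact hle
      · exact hx2 c' (Finset.mem_erase.2 ⟨h, hc'⟩)
    have hzc := hzs' c hc
    set θ : ℝ := (c.2 - c.1 z) / (c.1 x - c.1 z) with hθ
    have hden : 0 < c.1 x - c.1 z := by linarith
    have hθ0 : 0 < θ := div_pos (by linarith) hden
    have hθ1 : θ < 1 := by rw [hθ, div_lt_one hden]; linarith
    have hyc : c.1 ((1 - θ) • z + θ • x) = c.2 := by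
      simp only [map_add, map_smul, smul_eq_mul]
      have : θ * (c.1 x - c.1 z) = c.2 - c.1 z := by rw [hθ]; field_simp
      linarith
    have hother : ∀ c' ∈ t, c' ≠ c → c'.1 ((1 - θ) • z + θ • x) < c'.2 := by
      intro c' hc' hne'
      have h1 := hzs' c' hc'
      have h2 := hx2 c' (Finset.mem_erase.2 ⟨hne', hc'⟩)
      simp only [map_add, map_smul, smul_eq_mul]
      have h3 : (1 - θ) * c'.1 z < (1 - θ) * c'.2 := by
        apply mul_lt_mul_of_pos_left h1; linarith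
      have h4 : θ * c'.1 x ≤ θ * c'.2 := by
        apply mul_le_mul_of_nonneg_left h2 hθ0.le
      linarith
    refine ⟨(1 - θ) • z + θ • x, ?_, hyc, hother⟩
    rw [heq]
    refine ⟨fun c' hc' => ?_, fun c' hc' => ?_⟩
    · have h1 := (Finset.mem_filter.1 hc').2 z hz
      have h2 := hx1 c' hc'
      simp only [map_add, map_smul, smul_eq_mul, h1, h2]
      ring
    · by_cases h : c' = c
      · rw [h, hyc]
      · exact (hother c' hc' h).le
  refine ⟨u, t, ht.1.trans (Finset.filter_subset _ _), heq, ?_, hstrict, ?_⟩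
  · intro c hc
    obtain ⟨y, hy, hyc, _⟩ := hcross c hc
    exact ⟨y, hy, hyc⟩
  · intro c hc c' hc' hsub
    by_contra hne'
    obtain ⟨y, hy, hyc, hyo⟩ := hcross c hc
    have h1 := hsub ⟨hy, hyc⟩
    have h2 := hyo c' hc' (Ne.symm hne')
    exact absurd h1.2 h2.ne

variable {Q : Set E} {u t : Finset ((E →L[ℝ] ℝ) × ℝ)}

/-- the key separation property of irredundant systems -/
lemma Irred.exists_face (h : Irred Q u t) (hconv : Convex ℝ Q) (l : E →L[ℝ] ℝ) (c₀ : ℝ)
    (hval : ∀ x ∈ Q, l x ≤ c₀) (hG : ∃ x ∈ Q, l x = c₀) (q : E) (hq : q ∈ Q) (hlt : l q < c₀) :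
    ∃ c ∈ t, {x ∈ Q | l x = c₀} ⊆ {x ∈ Q | c.1 x = c.2} ∧ c.1 q < c.2 := by
  classical
  set G : Set E := {x ∈ Q | l x = c₀} with hGdef
  have hGconv : Convex ℝ G := by
    intro x hx y hy a b ha hb hab
    refine ⟨hconv hx.1 hy.1 ha hb hab, ?_⟩
    simp only [map_add, map_smul, smul_eq_mul]
    rw [hx.2, hy.2, ← add_mul, hab, one_mul]
  have hQle : ∀ x ∈ Q, ∀ c ∈ t, c.1 x ≤ c.2 := by
    intro x hx c hc
    rw [h.eq] at hx; exact hx.2 c hc
  have hQeq : ∀ x ∈ Q, ∀ c ∈ u, c.1 x = c.2 := by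
    intro x hx c hc
    rw [h.eq] at hx; exact hx.1 c hc
  obtain ⟨x₀, hx₀, hs⟩ := exists_strict G hGconv (by obtain ⟨x, hx, hxc⟩ := hG; exact ⟨x, hx, hxc⟩) t
    (fun x hx c hc => hQle x hx.1 c hc)
  by_contra hcon
  push Not at hcon
  -- every constraint active at `x₀` is active at `q`
  have hact : ∀ c ∈ t, c.1 x₀ = c.2 → c.1 q = c.2 := by
    intro c hc hx
    have h1 : G ⊆ {x ∈ Q | c.1 x = c.2} := by
      intro x hxG
      refine ⟨hxG.1, ?_⟩
      by_contra hne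
      have h2 := hs c hc ⟨x, hxG, lt_of_le_of_ne (hQle x hxG.1 c hc) hne⟩
      exact absurd hx h2.ne
    exact le_antisymm (hQle q hq c hc) (hcon c hc h1)
  -- push a bit beyond `x₀`
  have hτ : ∃ τ : ℝ, 0 < τ ∧ ∀ c ∈ t, c.1 (x₀ + τ • (x₀ - q)) ≤ c.2 := by
    have : ∀ t' ⊆ t, ∃ τ : ℝ, 0 < τ ∧ ∀ c ∈ t', ∀ τ' : ℝ, 0 ≤ τ' → τ' ≤ τ →
        c.1 (x₀ + τ' • (x₀ - q)) ≤ c.2 := by
      intro t'
      induction t' using Finset.induction_on with
      | empty => intro _; exact ⟨1, one_pos, by simp⟩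
      | insert c t' hct ih =>
        intro hsub
        obtain ⟨τ, hτ0, hτ⟩ := ih ((Finset.subset_insert _ _).trans hsub)
        have hc : c ∈ t := hsub (Finset.mem_insert_self _ _)
        by_cases hx : c.1 x₀ = c.2
        · refine ⟨τ, hτ0, ?_⟩
          intro c' hc' τ' h0 h1
          rcases Finset.mem_insert.1 hc' with rfl | hc'
          · have h2 := hact c' hc hx
            simp only [map_add, map_smul, map_sub, smul_eq_mul, hx, h2]
            simp
          · exact hτ c' hc' τ' h0 h1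
        · have hlt' : c.1 x₀ < c.2 := lt_of_le_of_ne (hQle x₀ hx₀.1 c hc) hx
          set D := |c.1 x₀ - c.1 q| + 1 with hD
          have hDpos : 0 < D := by positivity
          refine ⟨min τ ((c.2 - c.1 x₀) / D), lt_min hτ0 (div_pos (by linarith) hDpos), ?_⟩
          intro c' hc' τ' h0 h1
          rcases Finset.mem_insert.1 hc' with rfl | hc'
          · simp only [map_add, map_smul, map_sub, smul_eq_mul]
            have h2 : τ' ≤ (c'.2 - c'.1 x₀) / D := h1.trans (min_le_right _ _)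
            have h3 : τ' * (c'.1 x₀ - c'.1 q) ≤ τ' * D := by
              apply mul_le_mul_of_nonneg_left _ h0
              rw [hD]; have := le_abs_self (c'.1 x₀ - c'.1 q); linarith
            have h4 : τ' * D ≤ (c'.2 - c'.1 x₀) := by
              rw [le_div_iff₀ hDpos] at h2; exact h2
            linarith
          · exact hτ c' hc' τ' h0 (h1.trans (min_le_left _ _))
    obtain ⟨τ, h0, h1⟩ := this t (subset_refl _)
    exact ⟨τ, h0, fun c hc => h1 c hc τ h0.le le_rfl⟩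
  obtain ⟨τ, hτ0, hτ⟩ := hτ
  have hy : x₀ + τ • (x₀ - q) ∈ Q := by
    rw [h.eq]
    refine ⟨fun c hc => ?_, hτ⟩
    have h1 := hQeq x₀ hx₀.1 c hc
    have h2 := hQeq q hq c hc
    simp only [map_add, map_smul, map_sub, smul_eq_mul, h1, h2]
    simp
  have h1 := hval _ hy
  simp only [map_add, map_smul, map_sub, smul_eq_mul, hx₀.2] at h1
  have h2 : 0 < τ * (c₀ - l q) := mul_pos hτ0 (by linarith)
  linarith

lemma isExposed_sep (l : E →L[ℝ] ℝ) (c₀ : ℝ) (hval : ∀ x ∈ Q, l x ≤ c₀)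
    (hG : ∃ x ∈ Q, l x = c₀) : IsExposed ℝ Q {x ∈ Q | l x = c₀} := by
  intro _
  refine ⟨l, ?_⟩
  obtain ⟨x₁, hx₁, hx₁c⟩ := hG
  ext x
  constructor
  · rintro ⟨hx, hxc⟩
    exact ⟨hx, fun y hy => by rw [hxc]; exact hval y hy⟩
  · rintro ⟨hx, hmax⟩
    refine ⟨hx, le_antisymm (hval x hx) ?_⟩
    rw [← hx₁c]; exact hmax x₁ hx₁

lemma Irred.exists_of_properFace (h : Irred Q u t) (hconv : Convex ℝ Q) (G : Set E)
    (hG : IsProperFace Q G) : ∃ c ∈ t, G ⊆ {x ∈ Q | c.1 x = c.2} := by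
  obtain ⟨hne, hneq, hexp⟩ := hG
  obtain ⟨l, hl⟩ := hexp hne
  obtain ⟨x₁, hx₁⟩ := hne
  have hx₁' := hx₁
  rw [hl] at hx₁'
  have hG' : G = {x ∈ Q | l x = l x₁} := by
    rw [hl]
    ext x
    constructor
    · rintro ⟨hx, hmax⟩
      exact ⟨hx, le_antisymm (hx₁'.2 x hx) (hmax x₁ hx₁'.1)⟩
    · rintro ⟨hx, hxe⟩
      exact ⟨hx, fun y hy => by rw [hxe]; exact hx₁'.2 y hy⟩
  have hsub : G ⊆ Q := by rw [hG']; exact fun x hx => hx.1
  obtain ⟨q, hq, hqG⟩ : ∃ q ∈ Q, q ∉ G := by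
    by_contra hcon
    push Not at hcon
    exact hneq (Set.Subset.antisymm hsub hcon)
  have hqlt : l q < l x₁ := by
    refine lt_of_le_of_ne (hx₁'.2 q hq) ?_
    intro he
    apply hqG
    rw [hG']
    exact ⟨hq, he⟩
  obtain ⟨c, hc, hsub', _⟩ := h.exists_face hconv l (l x₁) hx₁'.2 ⟨x₁, hx₁'.1, rfl⟩ q hq hqlt
  exact ⟨c, hc, by rw [hG']; exact hsub'⟩

lemma Irred.mem_facets (h : Irred Q u t) (hconv : Convex ℝ Q) (c : (E →L[ℝ] ℝ) × ℝ) (hc : c ∈ t) :
    {x ∈ Q | c.1 x = c.2} ∈ facets Q := by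
  have hval : ∀ x ∈ Q, c.1 x ≤ c.2 := by
    intro x hx
    rw [h.eq] at hx; exact hx.2 c hc
  have hpf : ∀ c ∈ t, IsProperFace Q {x ∈ Q | c.1 x = c.2} := by
    intro c hc
    have hval : ∀ x ∈ Q, c.1 x ≤ c.2 := by
      intro x hx
      rw [h.eq] at hx; exact hx.2 c hc
    refine ⟨h.nonempty c hc, ?_, isExposed_sep c.1 c.2 hval (h.nonempty c hc)⟩
    intro heq
    obtain ⟨z, hz, hzc⟩ := h.proper c hc
    rw [← heq] at hz
    exact absurd hz.2 hzc.ne
  refine ⟨hpf c hc, ?_⟩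
  intro G hG hle
  obtain ⟨c', hc', hsub⟩ := h.exists_of_properFace hconv G hG
  have := h.incomp c hc c' hc' (hle.trans hsub)
  subst this
  exact hsub

lemma Irred.facets_subset (h : Irred Q u t) (hconv : Convex ℝ Q) :
    facets Q ⊆ (fun c : (E →L[ℝ] ℝ) × ℝ => {x ∈ Q | c.1 x = c.2}) '' (t : Set _) := by
  intro G hG
  obtain ⟨c, hc, hsub⟩ := h.exists_of_properFace hconv G hG.1
  refine ⟨c, hc, ?_⟩
  exact Set.Subset.antisymm (hG.2 (h.mem_facets hconv c hc).1 hsub) hsub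

end Desc

section Cover

variable {E : Type*} [NormedAddCommGroup E] [NormedSpace ℝ E]

lemma IsPolytope.finite_facets {Q : Set E} (hQ : IsPolytope Q) : (facets Q).Finite := by
  obtain ⟨_, s, hs⟩ := hQ
  rcases Q.eq_empty_or_nonempty with he | hne
  · have : facets Q = ∅ := by
      ext F
      simp only [Set.mem_empty_iff_false, iff_false]
      intro hF
      obtain ⟨⟨x, hx⟩, hneq, hexp⟩ := hF.1
      obtain ⟨l, hl⟩ := hexp ⟨x, hx⟩
      rw [hl, he] at hx
      exact hx.1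
    rw [this]; exact Set.finite_empty
  · rw [hs] at hne
    obtain ⟨u, t, _, hut⟩ := exists_irred s hne
    have := hut.facets_subset (convex_desc s)
    change (facets Q).Finite
    rw [hs]
    exact (t.finite_toSet.image _).subset this

/-- a system of `k` inequalities has at most `k` facets -/
lemma encard_facets_desc_le (s : Finset ((E →L[ℝ] ℝ) × ℝ)) (hne : (desc s).Nonempty) :
    (facets (desc s)).encard ≤ s.card := by
  obtain ⟨u, t, hts, hut⟩ := exists_irred s hne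
  calc (facets (desc s)).encard
      ≤ ((fun c : (E →L[ℝ] ℝ) × ℝ => {x ∈ desc s | c.1 x = c.2}) '' (t : Set _)).encard :=
        Set.encard_le_encard (hut.facets_subset (convex_desc s))
    _ ≤ (t : Set ((E →L[ℝ] ℝ) × ℝ)).encard := Set.encard_image_le _ _
    _ = t.card := Set.encard_coe_eq_coe_finsetCard t
    _ ≤ s.card := by exact_mod_cast Finset.card_le_card hts

/-- the separation property in terms of facets -/
lemma IsPolytope.exists_facet {Q : Set E} (hQ : IsPolytope Q) (l : E →L[ℝ] ℝ) (c₀ : ℝ)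
    (hval : ∀ x ∈ Q, l x ≤ c₀) (hG : ∃ x ∈ Q, l x = c₀) (q : E) (hq : q ∈ Q) (hlt : l q < c₀) :
    ∃ F ∈ facets Q, {x ∈ Q | l x = c₀} ⊆ F ∧ q ∉ F := by
  obtain ⟨_, s, hs⟩ := hQ
  change Q = desc s at hs
  subst hs
  obtain ⟨u, t, _, hut⟩ := exists_irred s ⟨q, hq⟩
  obtain ⟨c, hc, hsub, hcq⟩ := hut.exists_face (convex_desc s) l c₀ hval hG q hq hlt
  exact ⟨_, hut.mem_facets (convex_desc s) c hc, hsub, fun h => absurd h.2 hcq.ne⟩

end Cover

end Pool.Agent.Helper37.Voronoi
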