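import Mathlib
import Pool.Agent.Helper37.Voronoi.Polytope

/-!
# Voronoi cells of network lattices are projections of boxes
-/

set_option autoImplicit false

namespace Pool.Agent.Helper37.Voronoi

open Module

section Defs

variable {E : Type*} [NormedAddCommGroup E] [InnerProductSpace ℝ E]

lemma norm_le_sub_iff (x z : E) : ‖x‖ ≤ ‖x - z‖ ↔ 2 * inner ℝ x z ≤ ‖z‖ ^ 2 := by
  have h := norm_sub_sq_real x z
  constructor
  · intro hle
    have : ‖x‖ ^ 2 ≤ ‖x - z‖ ^ 2 := by gcongr
    linarith
  · intro hle
    have : ‖x‖ ^ 2 ≤ ‖x - z‖ ^ 2 := by linarith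
    exact le_of_sq_le_sq this (norm_nonneg _)

lemma span_latOf {V : Type*} [Fintype V] (B : (V → ℝ) →ₗ[ℝ] E) :
    Submodule.span ℝ (latOf B) = LinearMap.range B := by
  classical
  apply le_antisymm
  · rw [Submodule.span_le]
    rintro z ⟨k, rfl⟩
    exact ⟨_, rfl⟩
  · rintro _ ⟨x, rfl⟩
    have : x = ∑ v, x v • (fun u => ((Pi.single v (1 : ℤ) : V → ℤ) u : ℝ)) := by
      funext u
      simp [Finset.sum_apply, Pi.single_apply]
    rw [this, map_sum]
    apply Submodule.sum_mem
    intro v _
    rw [map_smul]
    apply Submodule.smul_mem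
    apply Submodule.subset_span
    exact ⟨_, rfl⟩

end Defs

section Net

variable {V ι : Type*}

/-- extension by zero -/
def ext0 (x : V → ℝ) : Option V → ℝ := fun o => o.elim 0 x

/-- a weighted network on `V` and a ground node `none` -/
structure Net (V ι : Type*) where
  /-- source -/
  s : ι → Option V
  /-- target -/
  t : ι → Option V
  /-- weight -/
  w : ι → ℝ
  hw : ∀ j, 0 ≤ w j

/-- potential difference along an edge -/
def Net.lam (G : Net V ι) (x : V → ℝ) (j : ι) : ℝ := ext0 x (G.s j) - ext0 x (G.t j)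

lemma ext0_add (x y : V → ℝ) (o : Option V) : ext0 (x + y) o = ext0 x o + ext0 y o := by
  cases o <;> simp [ext0]

lemma ext0_smul (c : ℝ) (x : V → ℝ) (o : Option V) : ext0 (c • x) o = c * ext0 x o := by
  cases o <;> simp [ext0]

/-- the lattice basis map of a network -/
noncomputable def Net.map (G : Net V ι) : (V → ℝ) →ₗ[ℝ] EuclideanSpace ℝ ι where
  toFun x := WithLp.toLp 2 (fun j => √(G.w j) * G.lam x j)
  map_add' x y := by
    ext j
    simp only [Net.lam, ext0_add, PiLp.add_apply]
    ring
  map_smul' c x := by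
    ext j
    simp only [Net.lam, ext0_smul, PiLp.smul_apply, smul_eq_mul, RingHom.id_apply]
    ring

lemma Net.map_apply (G : Net V ι) (x : V → ℝ) (j : ι) :
    G.map x j = √(G.w j) * G.lam x j := rfl

/-- the box -/
def Net.box (G : Net V ι) : Set (EuclideanSpace ℝ ι) := {y | ∀ j, |y j| ≤ √(G.w j) / 2}

variable [Fintype ι]

lemma Net.inner_map (G : Net V ι) (x y : V → ℝ) :
    inner ℝ (G.map x) (G.map y) = ∑ j, G.w j * G.lam x j * G.lam y j := by
  rw [PiLp.inner_apply]
  apply Finset.sum_congr rfl
  intro j _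
  simp only [Net.map_apply, RCLike.inner_apply, conj_trivial]
  have := Real.mul_self_sqrt (G.hw j)
  calc √(G.w j) * G.lam y j * (√(G.w j) * G.lam x j)
      = (√(G.w j) * √(G.w j)) * G.lam x j * G.lam y j := by ring
    _ = _ := by rw [this]

lemma Net.norm_map (G : Net V ι) (x : V → ℝ) :
    ‖G.map x‖ ^ 2 = ∑ j, G.w j * (G.lam x j) ^ 2 := by
  rw [← real_inner_self_eq_norm_sq, G.inner_map]
  apply Finset.sum_congr rfl
  intro j _
  ring

lemma Net.inner_vec (G : Net V ι) (x : V → ℝ) (y : EuclideanSpace ℝ ι) :
    inner ℝ (G.map x) y = ∑ j, √(G.w j) * G.lam x j * y j := by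
  rw [PiLp.inner_apply]
  apply Finset.sum_congr rfl
  intro j _
  simp only [Net.map_apply, RCLike.inner_apply, conj_trivial]
  ring

/-- decomposition of `|a - b|` -/
lemma abs_split (α a b : ℝ) (ha : a ≤ 0 ∨ α ≤ a) (hb : b ≤ 0 ∨ α ≤ b) :
    |a - b| = |(a - if 0 < a then α else 0) - (b - if 0 < b then α else 0)|
      + α * |(if 0 < a then (1 : ℝ) else 0) - (if 0 < b then 1 else 0)| := by
  split_ifs with h1 h2 h2
  · simp
  · have ha' : α ≤ a := by rcases ha with h | h; linarith; exact h
    have hb' : b ≤ 0 := not_lt.1 h2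
    rw [abs_of_nonneg (by linarith), abs_of_nonneg (by linarith)]
    simp only [sub_zero, abs_one, mul_one]
    ring
  · have hb' : α ≤ b := by rcases hb with h | h; linarith; exact h
    have ha' : a ≤ 0 := not_lt.1 h1
    rw [abs_of_nonpos (by linarith), abs_of_nonpos (by linarith)]
    simp only [sub_zero, zero_sub, abs_neg, abs_one, mul_one]
    ring
  · simp

lemma Net.lam_sub (G : Net V ι) (x y : V → ℝ) (j : ι) : G.lam (x - y) j = G.lam x j - G.lam y j := by
  have h : ∀ o : Option V, ext0 (x - y) o = ext0 x o - ext0 y o := by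
    intro o; cases o <;> simp [ext0]
  simp only [Net.lam, h]; ring

lemma Net.lam_smul (G : Net V ι) (c : ℝ) (x : V → ℝ) (j : ι) : G.lam (c • x) j = c * G.lam x j := by
  simp only [Net.lam, ext0_smul]; ring

lemma Net.lam_neg (G : Net V ι) (x : V → ℝ) (j : ι) : G.lam (-x) j = - G.lam x j := by
  have h : ∀ o : Option V, ext0 (-x) o = - ext0 x o := by
    intro o; cases o <;> simp [ext0]
  simp only [Net.lam, h]; ring

/-- `0/1` indicator of positivity -/
noncomputable def posInd (u : V → ℝ) : V → ℝ := fun v => if 0 < u v then 1 else 0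

lemma Net.lam_split (G : Net V ι) (u : V → ℝ) (α : ℝ)
    (hu : ∀ v, u v ≤ 0 ∨ α ≤ u v) (j : ι) :
    |G.lam u j| = |G.lam (u - α • posInd u) j| + α * |G.lam (posInd u) j| := by
  have h0 : ∀ o : Option V, ext0 (u - α • posInd u) o = ext0 u o - if 0 < ext0 u o then α else 0 := by
    intro o
    cases o with
    | none => simp [ext0]
    | some v => simp only [ext0, posInd, Option.elim_some, Pi.sub_apply, Pi.smul_apply, smul_eq_mul, mul_ite, mul_one, mul_zero]; congr
  have h1 : ∀ o : Option V, ext0 (posInd u) o = if 0 < ext0 u o then 1 else 0 := by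
    intro o
    cases o with
    | none => simp [ext0]
    | some v => simp only [ext0, posInd, Option.elim_some]; congr
  have h2 : ∀ o : Option V, ext0 u o ≤ 0 ∨ α ≤ ext0 u o := by
    intro o
    cases o with
    | none => left; simp [ext0]
    | some v => exact hu v
  simp only [Net.lam, h0, h1]
  exact abs_split α _ _ (h2 _) (h2 _)

lemma Net.lam_posInd (G : Net V ι) (u : V → ℝ) (j : ι) :
    |G.lam (posInd u) j| = (G.lam (posInd u) j) ^ 2 := by
  have h1 : ∀ o : Option V, ext0 (posInd u) o = 0 ∨ ext0 (posInd u) o = 1 := by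
    intro o
    cases o with
    | none => left; simp [ext0]
    | some v =>
      by_cases h : 0 < u v
      · right; simp [ext0, posInd, h]
      · left; simp [ext0, posInd, h]
  simp only [Net.lam]
  rcases h1 (G.s j) with h | h <;> rcases h1 (G.t j) with h' | h' <;> rw [h, h'] <;> norm_num

variable [Fintype V]

lemma Net.support_step (G : Net V ι) (x : EuclideanSpace ℝ ι)
    (hx : ∀ k : V → ℤ, 2 * inner ℝ x (G.map (fun v => (k v : ℝ))) ≤ ‖G.map (fun v => (k v : ℝ))‖ ^ 2)
    (n : ℕ) (ih : ∀ u : V → ℝ, (Finset.univ.filter (fun v => u v ≠ 0)).card < n →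
      |inner ℝ (G.map u) x| ≤ (∑ j, G.w j * |G.lam u j|) / 2)
    (u : V → ℝ) (hn : (Finset.univ.filter (fun v => u v ≠ 0)).card ≤ n)
    (hpos : ∃ v, 0 < u v) : |inner ℝ (G.map u) x| ≤ (∑ j, G.w j * |G.lam u j|) / 2 := by
  classical
  obtain ⟨v₀, hv₀, hmin⟩ := Finset.exists_min_image (Finset.univ.filter (fun v => 0 < u v)) u
    (by obtain ⟨v, hv⟩ := hpos; exact ⟨v, by simpa using hv⟩)
  have hα : 0 < u v₀ := (Finset.mem_filter.1 hv₀).2
  have hu : ∀ v, u v ≤ 0 ∨ u v₀ ≤ u v := by
    intro v
    by_cases h : 0 < u v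
    · right; exact hmin v (by simpa using h)
    · left; exact not_lt.1 h
  set α := u v₀ with hαdef
  set u' := u - α • posInd u with hu'
  have hcard : (Finset.univ.filter (fun v => u' v ≠ 0)).card < n := by
    refine lt_of_lt_of_le (Finset.card_lt_card ?_) hn
    rw [Finset.ssubset_iff_of_subset]
    · refine ⟨v₀, ?_, ?_⟩
      · simp only [Finset.mem_filter, Finset.mem_univ, true_and]; exact hα.ne'
      · simp only [Finset.mem_filter, Finset.mem_univ, true_and, not_not, hu', Pi.sub_apply,
          Pi.smul_apply, smul_eq_mul, posInd]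
        rw [if_pos hα]; simp [hαdef]
    · intro v hv
      simp only [Finset.mem_filter, Finset.mem_univ, true_and] at hv ⊢
      intro h0
      apply hv
      simp [hu', posInd, h0]
  have h1 := ih u' hcard
  have h2 : |inner ℝ (G.map (posInd u)) x| ≤ (∑ j, G.w j * |G.lam (posInd u) j|) / 2 := by
    have e1 := hx (fun v => if 0 < u v then 1 else 0)
    have e2 := hx (fun v => if 0 < u v then -1 else 0)
    have c1 : (fun v => (((if 0 < u v then 1 else 0 : ℤ)) : ℝ)) = posInd u := by
      funext v; unfold posInd; push_cast; rfl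
    have c2 : (fun v => (((if 0 < u v then -1 else 0 : ℤ)) : ℝ)) = - posInd u := by
      funext v; simp only [posInd, Pi.neg_apply]; split_ifs <;> simp
    rw [c1] at e1
    rw [c2] at e2
    rw [map_neg, inner_neg_right, norm_neg] at e2
    rw [G.norm_map] at e1 e2
    have e3 : (∑ j, G.w j * |G.lam (posInd u) j|) = ∑ j, G.w j * (G.lam (posInd u) j) ^ 2 := by
      apply Finset.sum_congr rfl
      intro j _
      rw [G.lam_posInd]
    rw [e3, real_inner_comm]
    rw [abs_le]
    constructor <;> linarith
  have h3 : G.map u = G.map u' + α • G.map (posInd u) := by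
    rw [← map_smul, ← map_add, hu']; congr 1; abel
  rw [h3, inner_add_left, inner_smul_left]
  simp only [conj_trivial]
  have h4 : ∑ j, G.w j * |G.lam u j| = ∑ j, G.w j * |G.lam u' j|
      + α * ∑ j, G.w j * |G.lam (posInd u) j| := by
    rw [Finset.mul_sum, ← Finset.sum_add_distrib]
    apply Finset.sum_congr rfl
    intro j _
    rw [G.lam_split u α hu j]
    ring
  rw [h4]
  calc |inner ℝ (G.map u') x + α * inner ℝ (G.map (posInd u)) x|
      ≤ |inner ℝ (G.map u') x| + |α * inner ℝ (G.map (posInd u)) x| := abs_add_le _ _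
    _ = |inner ℝ (G.map u') x| + α * |inner ℝ (G.map (posInd u)) x| := by
        rw [abs_mul, abs_of_pos hα]
    _ ≤ (∑ j, G.w j * |G.lam u' j|) / 2 + α * ((∑ j, G.w j * |G.lam (posInd u) j|) / 2) := by
        gcongr
    _ = _ := by ring

/-- the support function inequality -/
lemma Net.support (G : Net V ι) (x : EuclideanSpace ℝ ι)
    (hx : ∀ k : V → ℤ, 2 * inner ℝ x (G.map (fun v => (k v : ℝ))) ≤ ‖G.map (fun v => (k v : ℝ))‖ ^ 2)
    (u : V → ℝ) : |inner ℝ (G.map u) x| ≤ (∑ j, G.w j * |G.lam u j|) / 2 := by
  classical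
  induction hn : (Finset.univ.filter (fun v => u v ≠ 0)).card using Nat.strong_induction_on
    generalizing u with
  | _ n ih =>
    have ih' : ∀ u : V → ℝ, (Finset.univ.filter (fun v => u v ≠ 0)).card < n →
      |inner ℝ (G.map u) x| ≤ (∑ j, G.w j * |G.lam u j|) / 2 := fun u hu => ih _ hu u rfl
    by_cases hpos : ∃ v, 0 < u v
    · exact G.support_step x hx n ih' u hn.le hpos
    · by_cases hneg : ∃ v, u v < 0
      · have := G.support_step x hx n ih' (-u) (by simpa using hn.le)
          (by obtain ⟨v, hv⟩ := hneg; exact ⟨v, by simpa using hv⟩)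
        rw [map_neg, inner_neg_left, abs_neg] at this
        simpa only [G.lam_neg, abs_neg] using this
      · have : u = 0 := by
          funext v
          push Not at hpos hneg
          exact le_antisymm (hpos v) (hneg v)
        rw [this, map_zero, inner_zero_left, abs_zero]
        apply div_nonneg _ (by norm_num)
        exact Finset.sum_nonneg (fun j _ => mul_nonneg (G.hw j) (abs_nonneg _))

/-- the Voronoi cell of a network lattice is the projection of a box -/
lemma Net.voronoi_eq (G : Net V ι) :
    voronoiCell (latOf G.map) = (LinearMap.range G.map).starProjection '' G.box := by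
  set W := LinearMap.range G.map with hW
  have hmem : ∀ x, G.map x ∈ W := fun x => ⟨x, rfl⟩
  have hinner : ∀ (x : V → ℝ) (y : EuclideanSpace ℝ ι),
      inner ℝ (G.map x) (W.starProjection y) = inner ℝ (G.map x) y := by
    intro x y
    rw [← Submodule.inner_starProjection_left_eq_right,
      Submodule.starProjection_eq_self_iff.2 (hmem x)]
  apply Set.Subset.antisymm
  · rintro x ⟨hx, hxz⟩
    rw [span_latOf] at hx
    have hx2 : ∀ k : V → ℤ, 2 * inner ℝ x (G.map (fun v => (k v : ℝ)))
        ≤ ‖G.map (fun v => (k v : ℝ))‖ ^ 2 :=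
      fun k => (norm_le_sub_iff _ _).1 (hxz _ ⟨k, rfl⟩)
    by_contra hnot
    have hbc : IsCompact G.box := by
      rw [Metric.isCompact_iff_isClosed_bounded]
      constructor
      · simp only [Net.box, Set.ofPred_forall]
        apply isClosed_iInter
        intro j
        exact isClosed_le ((EuclideanSpace.proj (𝕜 := ℝ) j).continuous.abs) continuous_const
      · rw [isBounded_iff_forall_norm_le]
        refine ⟨√(∑ j, (√(G.w j) / 2) ^ 2), ?_⟩
        intro y hy
        rw [EuclideanSpace.norm_eq]
        apply Real.sqrt_le_sqrt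
        apply Finset.sum_le_sum
        intro j _
        have := hy j
        rw [Real.norm_eq_abs]
        gcongr
    have hconv : Convex ℝ G.box := by
      intro y hy z hz a b ha hb hab j
      have h1 := hy j
      have h2 := hz j
      calc |(a • y + b • z) j| = |a * y j + b * z j| := by simp
        _ ≤ |a * y j| + |b * z j| := abs_add_le _ _
        _ = a * |y j| + b * |z j| := by rw [abs_mul, abs_mul, abs_of_nonneg ha, abs_of_nonneg hb]
        _ ≤ a * (√(G.w j) / 2) + b * (√(G.w j) / 2) := by gcongr
        _ = √(G.w j) / 2 := by rw [← add_mul, hab, one_mul]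
    have hcl : IsClosed (W.starProjection '' G.box) :=
      (hbc.image W.starProjection.continuous).isClosed
    have hcv : Convex ℝ (W.starProjection '' G.box) :=
      hconv.linear_image (W.starProjection : EuclideanSpace ℝ ι →ₗ[ℝ] EuclideanSpace ℝ ι)
    obtain ⟨f, c, hf1, hf2⟩ := geometric_hahn_banach_closed_point hcv hcl hnot
    set g := (InnerProductSpace.toDual ℝ (EuclideanSpace ℝ ι)).symm f with hg
    have hfg : ∀ y, f y = inner ℝ g y := by
      intro y
      rw [hg, InnerProductSpace.toDual_symm_apply]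
    obtain ⟨u, hu⟩ : W.starProjection g ∈ W := Submodule.starProjection_apply_mem W g
    -- the maximiser
    let y : EuclideanSpace ℝ ι := WithLp.toLp 2 (fun j =>
      √(G.w j) / 2 * (if 0 ≤ G.lam u j then 1 else -1))
    have hy : y ∈ G.box := by
      intro j
      simp only [y]
      split_ifs
      · rw [mul_one, abs_of_nonneg (by positivity)]
      · rw [mul_neg_one, abs_neg, abs_of_nonneg (by positivity)]
    have h1 := hf1 _ ⟨y, hy, rfl⟩
    rw [hfg] at h1 hf2
    have h2 : inner ℝ g (W.starProjection y) = inner ℝ (G.map u) y := by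
      rw [hu, Submodule.inner_starProjection_left_eq_right]
    have h3 : inner ℝ g x = inner ℝ (G.map u) x := by
      rw [hu, Submodule.inner_starProjection_left_eq_right,
        Submodule.starProjection_eq_self_iff.2 hx]
    rw [h2] at h1
    rw [h3] at hf2
    have h4 : inner ℝ (G.map u) y = (∑ j, G.w j * |G.lam u j|) / 2 := by
      rw [G.inner_vec, Finset.sum_div]
      apply Finset.sum_congr rfl
      intro j _
      simp only [y]
      have hsq := Real.mul_self_sqrt (G.hw j)
      split_ifs with h
      · rw [abs_of_nonneg h]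
        calc √(G.w j) * G.lam u j * (√(G.w j) / 2 * 1)
            = (√(G.w j) * √(G.w j)) * G.lam u j / 2 := by ring
          _ = _ := by rw [hsq]
      · rw [abs_of_neg (not_le.1 h)]
        calc √(G.w j) * G.lam u j * (√(G.w j) / 2 * -1)
            = (√(G.w j) * √(G.w j)) * -G.lam u j / 2 := by ring
          _ = _ := by rw [hsq]
    have h5 := (le_abs_self _).trans (G.support x hx2 u)
    linarith
  · rintro _ ⟨y, hy, rfl⟩
    refine ⟨?_, ?_⟩
    · rw [span_latOf]
      exact Submodule.starProjection_apply_mem W y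
    · rintro _ ⟨k, rfl⟩
      rw [norm_le_sub_iff, real_inner_comm, hinner, G.inner_vec, G.norm_map, Finset.mul_sum]
      apply Finset.sum_le_sum
      intro j _
      have hint : ∃ m : ℤ, G.lam (fun v => (k v : ℝ)) j = m := by
        have h : ∀ o : Option V, ∃ m : ℤ, ext0 (fun v => (k v : ℝ)) o = m := by
          intro o
          cases o with
          | none => exact ⟨0, by simp [ext0]⟩
          | some v => exact ⟨k v, by simp [ext0]⟩
        obtain ⟨m₁, h₁⟩ := h (G.s j)
        obtain ⟨m₂, h₂⟩ := h (G.t j)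
        exact ⟨m₁ - m₂, by simp only [Net.lam, h₁, h₂]; push_cast; ring⟩
      obtain ⟨m, hm⟩ := hint
      rw [hm]
      have hm2 : |(m : ℝ)| ≤ (m : ℝ) ^ 2 := by
        have : |m| ≤ m ^ 2 := by
          rw [← sq_abs]
          rcases (abs_nonneg m).eq_or_lt with h | h
          · rw [← h]; norm_num
          · nlinarith
        exact_mod_cast this
      have hyj := hy j
      have hsq := Real.mul_self_sqrt (G.hw j)
      calc 2 * (√(G.w j) * m * y j) ≤ 2 * (√(G.w j) * (|(m : ℝ)| * |y j|)) := by
            rw [mul_assoc]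
            have h1 : (m : ℝ) * y j ≤ |(m : ℝ)| * |y j| := by
              rw [← abs_mul]; exact le_abs_self _
            have h2 := Real.sqrt_nonneg (G.w j)
            gcongr
        _ ≤ 2 * (√(G.w j) * ((m : ℝ) ^ 2 * (√(G.w j) / 2))) := by gcongr
        _ = (√(G.w j) * √(G.w j)) * (m : ℝ) ^ 2 := by ring
        _ = G.w j * (m : ℝ) ^ 2 := by rw [hsq]

end Net

section Upper

variable {V : Type*} [Fintype V]

/-- a network lattice with `N` edges has a Voronoi cell of extension complexity at most `2N` -/
lemma Net.xc_le {N : ℕ} (G : Net V (Fin N)) : xc (voronoiCell (latOf G.map)) ≤ 2 * N := by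
  classical
  -- the system of inequalities describing the box
  let f : Fin N × Bool → (EuclideanSpace ℝ (Fin N) →L[ℝ] ℝ) × ℝ := fun p =>
    (if p.2 then EuclideanSpace.proj p.1 else -EuclideanSpace.proj p.1, √(G.w p.1) / 2)
  let s : Finset ((EuclideanSpace ℝ (Fin N) →L[ℝ] ℝ) × ℝ) := Finset.univ.image f
  have hproj : ∀ (j : Fin N) (y : EuclideanSpace ℝ (Fin N)),
      (EuclideanSpace.proj (𝕜 := ℝ) j : EuclideanSpace ℝ (Fin N) →L[ℝ] ℝ) y = y j :=
    fun _ _ => rfl
  have hbox : G.box = desc s := by
    ext y
    simp only [Net.box, desc, Set.mem_ofPred_eq, s, Finset.mem_image, Finset.mem_univ, true_and,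
      forall_exists_index, forall_apply_eq_imp_iff]
    constructor
    · rintro h ⟨j, b⟩
      have := abs_le.1 (h j)
      cases b
      · simp only [f, Bool.false_eq_true, if_false, neg_apply,
          hproj]
        linarith
      · simp only [f, if_true, hproj]
        linarith
    · intro h j
      have h1 := h (j, true)
      have h2 := h (j, false)
      simp only [f, if_true, Bool.false_eq_true, if_false, neg_apply,
        hproj] at h1 h2
      rw [abs_le]
      constructor <;> linarith
  have hcard : s.card ≤ 2 * N := by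
    calc s.card ≤ (Finset.univ : Finset (Fin N × Bool)).card := Finset.card_image_le
      _ = 2 * N := by simp [Finset.card_univ, mul_comm]
  have hne : (desc s).Nonempty := by
    rw [← hbox]
    exact ⟨0, fun j => by simp; positivity⟩
  have hbdd : Bornology.IsBounded G.box := by
    rw [isBounded_iff_forall_norm_le]
    refine ⟨√(∑ j, (√(G.w j) / 2) ^ 2), ?_⟩
    intro y hy
    rw [EuclideanSpace.norm_eq]
    apply Real.sqrt_le_sqrt
    apply Finset.sum_le_sum
    intro j _
    have := hy j
    rw [Real.norm_eq_abs]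
    gcongr
  have hpoly : IsPolytope G.box := ⟨hbdd, s, hbox⟩
  have hle : (facets G.box).encard ≤ (2 * N : ℕ) := by
    rw [hbox]
    exact (encard_facets_desc_le s hne).trans (by exact_mod_cast hcard)
  have hcast : (facets G.box).encard = ((facets G.box).ncard : ℕ∞) := by
    rw [Set.ncard_def, ENat.natCast_toNat]
    rw [Set.encard_ne_top_iff]
    exact hpoly.finite_facets
  have h1 : xc (voronoiCell (latOf G.map)) ≤ (facets G.box).ncard := by
    apply Nat.sInf_le
    refine ⟨N, G.box, ((LinearMap.range G.map).starProjection :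
      EuclideanSpace ℝ (Fin N) →ₗ[ℝ] EuclideanSpace ℝ (Fin N)), hpoly, hcast, ?_⟩
    rw [G.voronoi_eq]
    rfl
  have h2 : (facets G.box).ncard ≤ 2 * N := by
    rw [hcast] at hle
    exact_mod_cast hle
  exact h1.trans h2

end Upper

end Pool.Agent.Helper37.Voronoi
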