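import Mathlib
import Pool.Agent.Helper37.Voronoi.Network

/-!
# Voronoi cells of lattices are polytopes
-/

set_option autoImplicit false

namespace Pool.Agent.Helper37.Voronoi

open Module

variable {V : Type*} [Fintype V]

lemma basis_expand [DecidableEq V] {E : Type*} [NormedAddCommGroup E] [InnerProductSpace ℝ E]
    (B : (V → ℝ) →ₗ[ℝ] E) (x : E) (u : V → ℝ) :
    inner ℝ x (B u) = ∑ v, u v * inner ℝ x (B (Pi.single v 1)) := by
  have h : u = ∑ v, u v • (Pi.single v (1 : ℝ) : V → ℝ) := by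
    funext w
    simp [Finset.sum_apply, Pi.single_apply]
  conv_lhs => rw [h]
  rw [map_sum, inner_sum]
  apply Finset.sum_congr rfl
  intro v _
  rw [map_smul, inner_smul_right]

lemma exists_radius [DecidableEq V] {E : Type*} [NormedAddCommGroup E] [InnerProductSpace ℝ E]
    (B : (V → ℝ) →ₗ[ℝ] E) (hB : Function.Injective B) :
    ∃ R : ℝ, 0 ≤ R ∧ ∀ u : V → ℝ, (∀ v, |inner ℝ (B u) (B (Pi.single v 1))|
      ≤ ‖B (Pi.single v 1)‖ ^ 2 / 2) → ‖B u‖ ≤ R := by
  let T : (V → ℝ) →ₗ[ℝ] (V → ℝ) :=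
    { toFun := fun u v => inner ℝ (B u) (B (Pi.single v 1))
      map_add' := by intro u u'; funext v; simp [inner_add_left]
      map_smul' := by intro c u; funext v; simp [inner_smul_left] }
  have hT : LinearMap.ker T = ⊥ := by
    rw [LinearMap.ker_eq_bot']
    intro u hu
    have h1 : inner ℝ (B u) (B u) = 0 := by
      rw [basis_expand B (B u) u]
      apply Finset.sum_eq_zero
      intro v _
      have := congrFun hu v
      simp only [T, LinearMap.coe_mk, AddHom.coe_mk, Pi.zero_apply] at this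
      rw [this, mul_zero]
    rw [inner_self_eq_zero] at h1
    apply hB
    rw [h1, map_zero]
  obtain ⟨K, hK, hanti⟩ := LinearMap.exists_antilipschitzWith T hT
  let Bc : (V → ℝ) →L[ℝ] E := LinearMap.toContinuousLinearMap B
  set C : ℝ := ∑ v, ‖B (Pi.single v 1)‖ ^ 2 / 2 with hC
  have hC0 : 0 ≤ C := Finset.sum_nonneg (fun v _ => by positivity)
  refine ⟨‖Bc‖ * (K * C), by positivity, ?_⟩
  intro u hu
  have h1 : ‖T u‖ ≤ C := by
    rw [pi_norm_le_iff_of_nonneg hC0]
    intro v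
    calc ‖T u v‖ = |inner ℝ (B u) (B (Pi.single v 1))| := rfl
      _ ≤ ‖B (Pi.single v 1)‖ ^ 2 / 2 := hu v
      _ ≤ C := Finset.single_le_sum (f := fun v => ‖B (Pi.single v 1)‖ ^ 2 / 2)
        (fun v _ => by positivity) (Finset.mem_univ v)
  have h2 : ‖u‖ ≤ K * ‖T u‖ := by
    have := hanti.le_mul_dist u 0
    simpa [map_zero] using this
  calc ‖B u‖ = ‖Bc u‖ := rfl
    _ ≤ ‖Bc‖ * ‖u‖ := Bc.le_opNorm u
    _ ≤ ‖Bc‖ * (K * ‖T u‖) := by gcongr
    _ ≤ ‖Bc‖ * (K * C) := by gcongr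

lemma finite_short {E : Type*} [NormedAddCommGroup E] [InnerProductSpace ℝ E]
    (B : (V → ℝ) →ₗ[ℝ] E) (hB : Function.Injective B) (R : ℝ) :
    {k : V → ℤ | ‖B (fun v => (k v : ℝ))‖ ≤ R}.Finite := by
  classical
  obtain ⟨K, hK, hanti⟩ := LinearMap.exists_antilipschitzWith B (LinearMap.ker_eq_bot.2 hB)
  apply (Set.finite_Icc (fun _ : V => -⌈(K : ℝ) * R⌉) (fun _ : V => ⌈(K : ℝ) * R⌉)).subset
  intro k hk
  have h1 : ‖(fun v => (k v : ℝ))‖ ≤ K * ‖B (fun v => (k v : ℝ))‖ := by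
    have := hanti.le_mul_dist (fun v => (k v : ℝ)) 0
    simpa [map_zero] using this
  have h2 : ‖(fun v => (k v : ℝ))‖ ≤ K * R := h1.trans (by gcongr; exact hk)
  have h3 : ∀ v, |(k v : ℝ)| ≤ K * R := fun v => (norm_le_pi_norm (fun v => (k v : ℝ)) v).trans h2
  rw [Set.mem_Icc]
  constructor
  · intro v
    have h4 : -(⌈(K : ℝ) * R⌉ : ℝ) ≤ k v := by
      have := (abs_le.1 (h3 v)).1
      have h5 := Int.le_ceil ((K : ℝ) * R)
      linarith
    exact_mod_cast h4
  · intro v
    have h4 : (k v : ℝ) ≤ (⌈(K : ℝ) * R⌉ : ℝ) :=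
      (abs_le.1 (h3 v)).2.trans (Int.le_ceil ((K : ℝ) * R))
    exact_mod_cast h4

/-- Voronoi cells of lattices are polytopes -/
lemma isPolytope_voronoi {N : ℕ} (B : (V → ℝ) →ₗ[ℝ] EuclideanSpace ℝ (Fin N))
    (hB : Function.Injective B) : IsPolytope (voronoiCell (latOf B)) := by
  classical
  obtain ⟨R, hR0, hR⟩ := exists_radius B hB
  -- integer basis vectors
  have hcast : ∀ v : V, (fun u => ((Pi.single v (1 : ℤ) : V → ℤ) u : ℝ)) = Pi.single v (1 : ℝ) := by
    intro v; funext u; simp only [Pi.single_apply]; split_ifs <;> simp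
  have hcast' : ∀ v : V, (fun u => ((Pi.single v (-1 : ℤ) : V → ℤ) u : ℝ)) = -Pi.single v (1 : ℝ) := by
    intro v; funext u; simp only [Pi.single_apply, Pi.neg_apply]; split_ifs <;> simp
  set W := LinearMap.range B with hW
  have hbound : ∀ x ∈ W, (∀ v : V, 2 * inner ℝ x (B (Pi.single v 1)) ≤ ‖B (Pi.single v 1)‖ ^ 2) →
      (∀ v : V, 2 * inner ℝ x (-B (Pi.single v 1)) ≤ ‖-B (Pi.single v 1)‖ ^ 2) → ‖x‖ ≤ R := by
    rintro _ ⟨u, rfl⟩ h1 h2
    apply hR
    intro v
    have e1 := h1 v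
    have e2 := h2 v
    rw [inner_neg_right, norm_neg] at e2
    rw [abs_le]
    constructor <;> linarith
  have hbdd : ∀ x ∈ voronoiCell (latOf B), ‖x‖ ≤ R := by
    rintro x ⟨hx, hxz⟩
    rw [span_latOf] at hx
    apply hbound x hx
    · intro v
      rw [← norm_le_sub_iff]
      exact hxz _ ⟨Pi.single v 1, by rw [hcast]⟩
    · intro v
      rw [← norm_le_sub_iff]
      exact hxz _ ⟨Pi.single v (-1), by rw [hcast', map_neg]⟩
  refine ⟨isBounded_iff_forall_norm_le.2 ⟨R, hbdd⟩, ?_⟩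
  let F : Finset (V → ℤ) := (finite_short B hB (2 * R)).toFinset ∪
    (Finset.univ.image (fun v : V => (Pi.single v 1 : V → ℤ)) ∪
      Finset.univ.image (fun v : V => (Pi.single v (-1) : V → ℤ)))
  let f1 : (V → ℤ) → (EuclideanSpace ℝ (Fin N) →L[ℝ] ℝ) × ℝ := fun k =>
    (innerSL ℝ (B (fun v => (k v : ℝ))), ‖B (fun v => (k v : ℝ))‖ ^ 2 / 2)
  let D : EuclideanSpace ℝ (Fin N) →L[ℝ] EuclideanSpace ℝ (Fin N) :=
    ContinuousLinearMap.id ℝ _ - W.starProjection
  let f2 : Fin N × Bool → (EuclideanSpace ℝ (Fin N) →L[ℝ] ℝ) × ℝ := fun p =>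
    ((if p.2 then EuclideanSpace.proj p.1 else -EuclideanSpace.proj p.1) ∘L D, 0)
  refine ⟨F.image f1 ∪ Finset.univ.image f2, ?_⟩
  have hf1 : ∀ k x, (f1 k).1 x = inner ℝ x (B (fun v => (k v : ℝ))) := by
    intro k x
    simp only [f1, innerSL_apply_apply]
    rw [real_inner_comm]
  have hf1' : ∀ k, (f1 k).2 = ‖B (fun v => (k v : ℝ))‖ ^ 2 / 2 := fun k => rfl
  have hf2t : ∀ j x, (f2 (j, true)).1 x = (x - W.starProjection x) j := fun j x => rfl
  have hf2f : ∀ j x, (f2 (j, false)).1 x = -(x - W.starProjection x) j := fun j x => rfl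
  have hf2' : ∀ p, (f2 p).2 = 0 := fun p => rfl
  ext x
  simp only [Set.mem_ofPred_eq]
  constructor
  · intro hx c hc
    have hxW : x ∈ W := by have := hx.1; rwa [span_latOf] at this
    rw [Finset.mem_union, Finset.mem_image, Finset.mem_image] at hc
    rcases hc with ⟨k, _, rfl⟩ | ⟨⟨j, b⟩, _, rfl⟩
    · rw [hf1, hf1']
      have := (norm_le_sub_iff _ _).1 (hx.2 _ ⟨k, rfl⟩)
      linarith
    · have h0 : x - W.starProjection x = 0 := by
        rw [Submodule.starProjection_eq_self_iff.2 hxW, sub_self]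
      cases b
      · rw [hf2f, hf2', h0]; simp
      · rw [hf2t, hf2', h0]; simp
  · intro hx
    have hx1 : ∀ k ∈ F, 2 * inner ℝ x (B (fun v => (k v : ℝ))) ≤ ‖B (fun v => (k v : ℝ))‖ ^ 2 := by
      intro k hk
      have := hx (f1 k) (Finset.mem_union_left _ (Finset.mem_image_of_mem _ hk))
      rw [hf1, hf1'] at this
      linarith
    have hx2 : ∀ j, (x - W.starProjection x) j = 0 := by
      intro j
      have h1 := hx (f2 (j, true)) (Finset.mem_union_right _ (Finset.mem_image_of_mem _ (Finset.mem_univ _)))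
      have h2 := hx (f2 (j, false)) (Finset.mem_union_right _ (Finset.mem_image_of_mem _ (Finset.mem_univ _)))
      rw [hf2t, hf2'] at h1
      rw [hf2f, hf2'] at h2
      linarith
    have hx3 : x - W.starProjection x = 0 := by
      ext j
      exact hx2 j
    have hxW : x ∈ W := Submodule.starProjection_eq_self_iff.1 (sub_eq_zero.1 hx3).symm
    have hxR : ‖x‖ ≤ R := by
      apply hbound x hxW
      · intro v
        have := hx1 (Pi.single v 1) (by
          simp only [F, Finset.mem_union, Finset.mem_image, Finset.mem_univ, true_and]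
          right; left; exact ⟨v, rfl⟩)
        rwa [hcast] at this
      · intro v
        have := hx1 (Pi.single v (-1)) (by
          simp only [F, Finset.mem_union, Finset.mem_image, Finset.mem_univ, true_and]
          right; right; exact ⟨v, rfl⟩)
        rwa [hcast', map_neg] at this
    refine ⟨by rw [span_latOf]; exact hxW, ?_⟩
    rintro _ ⟨k, rfl⟩
    rw [norm_le_sub_iff]
    by_cases hk : ‖B (fun v => (k v : ℝ))‖ ≤ 2 * R
    · apply hx1
      simp only [F, Finset.mem_union, Set.Finite.mem_toFinset]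
      left; exact hk
    · push Not at hk
      have h1 := real_inner_le_norm x (B (fun v => (k v : ℝ)))
      have h2 : ‖x‖ * ‖B (fun v => (k v : ℝ))‖ ≤ R * ‖B (fun v => (k v : ℝ))‖ := by gcongr
      nlinarith [norm_nonneg (B (fun v => (k v : ℝ)))]

end Pool.Agent.Helper37.Voronoi
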