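import Mathlib
import Pool.Agent.Helper37.Voronoi.Poly

/-!
# Lattices with Gram matrix `1 - ε A` and their duals
-/

set_option autoImplicit false

namespace Pool.Agent.Helper37.Voronoi

open Module

variable {V : Type*} [Fintype V]

/-- multiplication by `A` -/
noncomputable def aop (A : V → V → ℝ) : (V → ℝ) →ₗ[ℝ] (V → ℝ) where
  toFun x v := ∑ y, A v y * x y
  map_add' x y := by
    funext v
    simp [mul_add, Finset.sum_add_distrib]
  map_smul' c x := by
    funext v
    simp only [Pi.smul_apply, smul_eq_mul, RingHom.id_apply, Finset.mul_sum]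
    apply Finset.sum_congr rfl
    intro y _
    ring

lemma aop_apply (A : V → V → ℝ) (x : V → ℝ) (v : V) : aop A x v = ∑ y, A v y * x y := rfl

/-- multiplication by `1 - ε A` -/
noncomputable def lop (A : V → V → ℝ) (ε : ℝ) : (V → ℝ) →ₗ[ℝ] (V → ℝ) :=
  LinearMap.id - ε • aop A

lemma lop_apply (A : V → V → ℝ) (ε : ℝ) (x : V → ℝ) : lop A ε x = x - ε • aop A x := rfl

lemma aop_symm (A : V → V → ℝ) (hA : ∀ x y, A x y = A y x) (x y : V → ℝ) :
    x ⬝ᵥ aop A y = aop A x ⬝ᵥ y := by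
  simp only [dotProduct, aop_apply, Finset.mul_sum, Finset.sum_mul]
  rw [Finset.sum_comm]
  apply Finset.sum_congr rfl
  intro u _
  apply Finset.sum_congr rfl
  intro v _
  rw [hA v u]
  ring

/-- the network with Gram matrix `1 - ε A` -/
noncomputable def netOf {N : ℕ} (e : Fin N ≃ V ⊕ V × V) (A : V → V → ℝ) (ε : ℝ)
    (hA : ∀ x y, 0 ≤ A x y) (hε : 0 ≤ ε) (hd : ∀ x, ε * ∑ y, A x y ≤ 1 / 2) : Net V (Fin N) where
  s j := Sum.elim (fun x => some x) (fun p => some p.1) (e j)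
  t j := Sum.elim (fun _ => none) (fun p => some p.2) (e j)
  w j := Sum.elim (fun x => 1 - ε * ∑ y, A x y) (fun p => ε * A p.1 p.2 / 2) (e j)
  hw j := by
    rcases e j with x | p
    · simp only [Sum.elim_inl]
      linarith [hd x]
    · simp only [Sum.elim_inr]
      exact div_nonneg (mul_nonneg hε (hA _ _)) (by norm_num)

section

variable {N : ℕ} (e : Fin N ≃ V ⊕ V × V) (A : V → V → ℝ) (ε : ℝ)
    (hA : ∀ x y, 0 ≤ A x y) (hsym : ∀ x y, A x y = A y x)
    (hε : 0 ≤ ε) (hd : ∀ x, ε * ∑ y, A x y ≤ 1 / 2)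

include hsym in
lemma netOf_inner (x y : V → ℝ) :
    inner ℝ ((netOf e A ε hA hε hd).map x) ((netOf e A ε hA hε hd).map y)
      = x ⬝ᵥ lop A ε y := by
  rw [Net.inner_map]
  let f : V ⊕ V × V → ℝ := Sum.elim (fun v => (1 - ε * ∑ u, A v u) * x v * y v)
    (fun p => ε * A p.1 p.2 / 2 * (x p.1 - x p.2) * (y p.1 - y p.2))
  have h1 : ∀ j, (netOf e A ε hA hε hd).w j * (netOf e A ε hA hε hd).lam x j
      * (netOf e A ε hA hε hd).lam y j = f (e j) := by
    intro j
    simp only [Net.lam, netOf, f]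
    rcases e j with v | p
    · simp [ext0]
    · simp [ext0]
  simp only [h1]
  rw [e.sum_comp f, Fintype.sum_sum_type]
  simp only [f, Sum.elim_inl, Sum.elim_inr, Fintype.sum_prod_type]
  rw [lop_apply, dotProduct_sub, dotProduct_smul]
  simp only [dotProduct, aop_apply, smul_eq_mul]
  have h2 : ∑ u, ∑ v, ε * A u v / 2 * (x u - x v) * (y u - y v)
      = ε * (∑ u, (∑ v, A u v) * x u * y u) - ε * ∑ u, x u * ∑ v, A u v * y v := by
    have e1 : ∑ u, ∑ v, A u v * (x u * y u) = ∑ u, (∑ v, A u v) * x u * y u := by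
      apply Finset.sum_congr rfl
      intro u _
      rw [Finset.sum_mul, Finset.sum_mul]
      apply Finset.sum_congr rfl
      intro v _
      ring
    have e2 : ∑ u, ∑ v, A u v * (x v * y v) = ∑ u, (∑ v, A u v) * x u * y u := by
      rw [← e1, Finset.sum_comm]
      apply Finset.sum_congr rfl
      intro u _
      apply Finset.sum_congr rfl
      intro v _
      rw [hsym]
    have e3 : ∑ u, ∑ v, A u v * (x u * y v) = ∑ u, x u * ∑ v, A u v * y v := by
      apply Finset.sum_congr rfl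
      intro u _
      rw [Finset.mul_sum]
      apply Finset.sum_congr rfl
      intro v _
      ring
    have e4 : ∑ u, ∑ v, A u v * (x v * y u) = ∑ u, x u * ∑ v, A u v * y v := by
      rw [← e3, Finset.sum_comm]
      apply Finset.sum_congr rfl
      intro u _
      apply Finset.sum_congr rfl
      intro v _
      rw [hsym]
    have e5 : ∑ u, ∑ v, ε * A u v / 2 * (x u - x v) * (y u - y v)
        = ε / 2 * (∑ u, ∑ v, A u v * (x u * y u) + ∑ u, ∑ v, A u v * (x v * y v)
          - ∑ u, ∑ v, A u v * (x u * y v) - ∑ u, ∑ v, A u v * (x v * y u)) := by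
      simp only [← Finset.sum_add_distrib, ← Finset.sum_sub_distrib, Finset.mul_sum]
      apply Finset.sum_congr rfl
      intro u _
      apply Finset.sum_congr rfl
      intro v _
      ring
    rw [e5, e1, e2, e3, e4]
    ring
  rw [h2]
  have h3 : ∑ v, (1 - ε * ∑ u, A v u) * x v * y v
      = ∑ v, x v * y v - ε * ∑ u, (∑ v, A u v) * x u * y u := by
    rw [Finset.mul_sum, ← Finset.sum_sub_distrib]
    apply Finset.sum_congr rfl
    intro v _
    ring
  rw [h3]
  ring

include hsym hA hε hd in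
/-- coercivity -/
lemma lop_coercive {N : ℕ} (e : Fin N ≃ V ⊕ V × V) (x : V → ℝ) :
    (x ⬝ᵥ x) / 2 ≤ x ⬝ᵥ lop A ε x := by
  rw [← netOf_inner e A ε hA hsym hε hd, Net.inner_map]
  let f : V ⊕ V × V → ℝ := Sum.elim (fun v => (1 - ε * ∑ u, A v u) * x v * x v)
    (fun p => ε * A p.1 p.2 / 2 * (x p.1 - x p.2) * (x p.1 - x p.2))
  have h1 : ∀ j, (netOf e A ε hA hε hd).w j * (netOf e A ε hA hε hd).lam x j
      * (netOf e A ε hA hε hd).lam x j = f (e j) := by
    intro j
    simp only [Net.lam, netOf, f]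
    rcases e j with v | p
    · simp [ext0]
    · simp [ext0]
  simp only [h1]
  rw [e.sum_comp f, Fintype.sum_sum_type]
  have h2 : 0 ≤ ∑ p : V × V, f (Sum.inr p) := by
    apply Finset.sum_nonneg
    intro p _
    simp only [f, Sum.elim_inr]
    rw [mul_assoc]
    exact mul_nonneg (div_nonneg (mul_nonneg hε (hA _ _)) (by norm_num)) (mul_self_nonneg _)
  have h3 : (x ⬝ᵥ x) / 2 ≤ ∑ v, f (Sum.inl v) := by
    simp only [dotProduct, Finset.sum_div]
    apply Finset.sum_le_sum
    intro v _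
    simp only [f, Sum.elim_inl]
    have := hd v
    nlinarith [mul_self_nonneg (x v)]
  linarith

include hsym hA hε hd in
lemma exists_inv (e : Fin N ≃ V ⊕ V × V) : ∃ M : (V → ℝ) →ₗ[ℝ] (V → ℝ),
    (∀ x, lop A ε (M x) = x) ∧ (∀ x, M (lop A ε x) = x) := by
  have hinj : Function.Injective (lop A ε) := by
    rw [injective_iff_map_eq_zero]
    intro x hx
    have := lop_coercive A ε hA hsym hε hd e x
    rw [hx, dotProduct_zero] at this
    have h0 : x ⬝ᵥ x = 0 := le_antisymm (by linarith) (by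
      simp only [dotProduct]; exact Finset.sum_nonneg (fun v _ => mul_self_nonneg _))
    exact dotProduct_self_eq_zero.1 h0
  refine ⟨(LinearEquiv.ofInjectiveEndo (lop A ε) hinj).symm.toLinearMap, ?_, ?_⟩
  · intro x
    exact (LinearEquiv.ofInjectiveEndo (lop A ε) hinj).apply_symm_apply x
  · intro x
    exact (LinearEquiv.ofInjectiveEndo (lop A ε) hinj).symm_apply_apply x

include hsym in
lemma netOf_injective : Function.Injective (netOf e A ε hA hε hd).map := by
  rw [injective_iff_map_eq_zero]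
  intro x hx
  have h1 := netOf_inner e A ε hA hsym hε hd x x
  rw [hx, inner_zero_left] at h1
  have := lop_coercive A ε hA hsym hε hd e x
  rw [← h1] at this
  have h0 : x ⬝ᵥ x = 0 := le_antisymm (by linarith) (by
    simp only [dotProduct]; exact Finset.sum_nonneg (fun v _ => mul_self_nonneg _))
  exact dotProduct_self_eq_zero.1 h0

end

section Inv

variable {A : V → V → ℝ} {ε : ℝ} (hsym : ∀ x y, A x y = A y x)
  {M : (V → ℝ) →ₗ[ℝ] (V → ℝ)} (h1 : ∀ x, lop A ε (M x) = x) (h2 : ∀ x, M (lop A ε x) = x)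

include hsym in
lemma lop_symm (x y : V → ℝ) : x ⬝ᵥ lop A ε y = lop A ε x ⬝ᵥ y := by
  rw [lop_apply, lop_apply, dotProduct_sub, sub_dotProduct, dotProduct_smul, smul_dotProduct,
    aop_symm A hsym]

include hsym h1 in
lemma inv_symm (x y : V → ℝ) : x ⬝ᵥ M y = M x ⬝ᵥ y := by
  conv_lhs => rw [← h1 x]
  conv_rhs => rw [← h1 y]
  rw [← lop_symm hsym]

include h1 h2 in
lemma inv_expand (x : V → ℝ) :
    M x = x + ε • aop A x + (ε ^ 2) • aop A (M (aop A x)) := by
  have h3 : lop A ε (x + ε • aop A x + (ε ^ 2) • aop A (M (aop A x))) = x := by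
    have h4 := h1 (aop A x)
    rw [lop_apply] at h4
    have h5 : aop A (M (aop A x)) - ε • aop A (aop A (M (aop A x))) = aop A (aop A x) := by
      rw [← map_smul, ← map_sub, h4]
    rw [lop_apply, map_add, map_add, map_smul, map_smul]
    have h6 : (ε ^ 2) • aop A (M (aop A x)) = (ε ^ 2) • (aop A (aop A x)
        + ε • aop A (aop A (M (aop A x)))) := by
      rw [← h5]; congr 1; abel
    rw [h6]
    module
  calc M x = M (lop A ε (x + ε • aop A x + (ε ^ 2) • aop A (M (aop A x)))) := by rw [h3]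
    _ = _ := h2 _

include hsym h1 h2 in
lemma inv_quad (x : V → ℝ) :
    x ⬝ᵥ M x = x ⬝ᵥ x + ε * (x ⬝ᵥ aop A x) + ε ^ 2 * (aop A x ⬝ᵥ M (aop A x)) := by
  conv_lhs => rw [inv_expand h1 h2 x]
  rw [dotProduct_add, dotProduct_add, dotProduct_smul, dotProduct_smul, aop_symm A hsym x (M _)]
  simp only [smul_eq_mul]

include h1 in
lemma inv_quad_bounds (hco : ∀ x : V → ℝ, (x ⬝ᵥ x) / 2 ≤ x ⬝ᵥ lop A ε x) (x : V → ℝ) :
    0 ≤ x ⬝ᵥ M x ∧ x ⬝ᵥ M x ≤ 2 * (x ⬝ᵥ x) := by
  have h3 := hco (M x)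
  rw [h1, dotProduct_comm (M x) x] at h3
  have h4 : 0 ≤ M x ⬝ᵥ M x := by
    simp only [dotProduct]; exact Finset.sum_nonneg (fun v _ => mul_self_nonneg _)
  refine ⟨by linarith, ?_⟩
  -- `0 ≤ |2x - Mx|²`
  have h5 : 0 ≤ ((2 : ℝ) • x - M x) ⬝ᵥ ((2 : ℝ) • x - M x) := by
    simp only [dotProduct]; exact Finset.sum_nonneg (fun v _ => mul_self_nonneg _)
  rw [sub_dotProduct, dotProduct_sub, dotProduct_sub, smul_dotProduct, dotProduct_smul,
    smul_dotProduct, dotProduct_smul, dotProduct_comm (M x) x] at h5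
  simp only [smul_eq_mul] at h5
  linarith

end Inv

/-- the dual lattice of `B ℤ^V` -/
lemma dual_eq {E : Type*} [NormedAddCommGroup E] [InnerProductSpace ℝ E]
    (B : (V → ℝ) →ₗ[ℝ] E) (L M : (V → ℝ) →ₗ[ℝ] (V → ℝ))
    (hL : ∀ x y, inner ℝ (B x) (B y) = x ⬝ᵥ L y) (h1 : ∀ x, L (M x) = x) (h2 : ∀ x, M (L x) = x) :
    dualLattice (latOf B) = latOf (B ∘ₗ M) := by
  classical
  ext y
  constructor
  · rintro ⟨hy, hyz⟩
    rw [span_latOf] at hy
    obtain ⟨u, rfl⟩ := hy
    have h3 : ∀ v, ∃ k : ℤ, L u v = k := by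
      intro v
      obtain ⟨k, hk⟩ := hyz _ ⟨Pi.single v 1, rfl⟩
      refine ⟨k, ?_⟩
      rw [real_inner_comm, hL] at hk
      rw [← hk]
      simp [dotProduct, Pi.single_apply]
    choose k hk using h3
    refine ⟨k, ?_⟩
    have h4 : (fun v => (k v : ℝ)) = L u := by funext v; rw [hk]
    rw [h4, LinearMap.comp_apply, h2]
  · rintro ⟨k, rfl⟩
    refine ⟨by rw [span_latOf]; exact ⟨_, rfl⟩, ?_⟩
    rintro _ ⟨k', rfl⟩
    rw [real_inner_comm, LinearMap.comp_apply, hL, h1]
    refine ⟨∑ v, k' v * k v, ?_⟩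
    simp [dotProduct]

end Pool.Agent.Helper37.Voronoi
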