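import Mathlib

/-!
# Rectangles in the unique disjointness matrix
-/

set_option autoImplicit false

namespace Pool.Agent.Helper37.Voronoi

open Finset

/-- size of the common support -/
def inter {n : ℕ} (a b : Fin n → Bool) : ℕ := (univ.filter (fun i => a i = true ∧ b i = true)).card

lemma inter_cons {n : ℕ} (x y : Bool) (a b : Fin n → Bool) :
    inter (Fin.cons x a) (Fin.cons y b) = (if x = true ∧ y = true then 1 else 0) + inter a b := by
  unfold inter
  rw [Finset.card_filter, Finset.card_filter, Fin.sum_univ_succ]
  simp

/-- number of disjoint pairs in a rectangle -/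
def dis {n : ℕ} (A B : Finset (Fin n → Bool)) : ℕ :=
  ∑ a : Fin n → Bool, ∑ b : Fin n → Bool,
    if a ∈ A ∧ b ∈ B ∧ inter a b = 0 then 1 else 0

/-- restriction -/
def slice {n : ℕ} (x : Bool) (A : Finset (Fin (n + 1) → Bool)) : Finset (Fin n → Bool) :=
  univ.filter (fun a => (Fin.cons x a : Fin (n + 1) → Bool) ∈ A)

lemma mem_slice {n : ℕ} (x : Bool) (A : Finset (Fin (n + 1) → Bool)) (a : Fin n → Bool) :
    a ∈ slice x A ↔ (Fin.cons x a : Fin (n + 1) → Bool) ∈ A := by
  simp [slice]

lemma sum_fin_succ {n : ℕ} (f : (Fin (n + 1) → Bool) → ℕ) :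
    ∑ a, f a = ∑ a : Fin n → Bool, f (Fin.cons false a) + ∑ a : Fin n → Bool, f (Fin.cons true a) := by
  rw [← (Fin.consEquiv (fun _ : Fin (n + 1) => Bool)).sum_comp]
  rw [Fintype.sum_prod_type, Fintype.sum_bool, add_comm]
  rfl

lemma dis_succ {n : ℕ} (A B : Finset (Fin (n + 1) → Bool)) :
    dis A B = dis (slice false A) (slice false B) + dis (slice false A) (slice true B)
      + dis (slice true A) (slice false B) := by
  unfold dis
  rw [sum_fin_succ]
  simp_rw [sum_fin_succ]
  simp only [inter_cons, mem_slice]
  simp [Finset.sum_add_distrib]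

lemma dis_le {n : ℕ} (A B : Finset (Fin n → Bool))
    (h : ∀ a ∈ A, ∀ b ∈ B, inter a b ≠ 1) : dis A B ≤ 2 ^ n := by
  induction n with
  | zero =>
    unfold dis
    simp only [Finset.univ_unique, Finset.sum_singleton, pow_zero]
    split_ifs <;> norm_num
  | succ n ih =>
    rw [dis_succ]
    have h1 : dis (slice false A) (slice false B ∪ slice true B) ≤ 2 ^ n := by
      apply ih
      intro a ha b hb
      rw [mem_slice] at ha
      rw [Finset.mem_union, mem_slice, mem_slice] at hb
      rcases hb with hb | hb
      · have := h _ ha _ hb
        rw [inter_cons] at this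
        simpa using this
      · have := h _ ha _ hb
        rw [inter_cons] at this
        simpa using this
    have h2 : dis (slice false A ∪ slice true A) (slice false B) ≤ 2 ^ n := by
      apply ih
      intro a ha b hb
      rw [mem_slice] at hb
      rw [Finset.mem_union, mem_slice, mem_slice] at ha
      rcases ha with ha | ha
      · have := h _ ha _ hb
        rw [inter_cons] at this
        simpa using this
      · have := h _ ha _ hb
        rw [inter_cons] at this
        simpa using this
    have h3 : dis (slice false A) (slice false B) + dis (slice false A) (slice true B)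
      + dis (slice true A) (slice false B) ≤ dis (slice false A) (slice false B ∪ slice true B)
        + dis (slice false A ∪ slice true A) (slice false B) := by
      unfold dis
      simp only [← Finset.sum_add_distrib]
      apply Finset.sum_le_sum
      intro a _
      apply Finset.sum_le_sum
      intro b _
      by_cases hab : inter a b = 0
      · have hnot : ¬ (a ∈ slice true A ∧ b ∈ slice true B) := by
          rintro ⟨ha, hb⟩
          rw [mem_slice] at ha hb
          apply h _ ha _ hb
          rw [inter_cons]
          simp [hab]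
        simp only [hab, and_true, Finset.mem_union]
        by_cases h1 : a ∈ slice false A <;> by_cases h2 : a ∈ slice true A <;>
          by_cases h3 : b ∈ slice false B <;> by_cases h4 : b ∈ slice true B <;>
          simp_all
      · simp [hab]
    rw [pow_succ]
    omega

lemma dis_univ (n : ℕ) : dis (univ : Finset (Fin n → Bool)) univ = 3 ^ n := by
  induction n with
  | zero =>
    unfold dis inter
    simp only [Finset.univ_unique, Finset.sum_singleton, pow_zero]
    simp
  | succ n ih =>
    rw [dis_succ]
    have h : ∀ x, slice x (univ : Finset (Fin (n + 1) → Bool)) = univ := by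
      intro x; ext a; simp [mem_slice]
    rw [h, h, ih, pow_succ]
    ring

/-- a cover of all disjoint pairs by rectangles without pairs meeting in one point has at least
`(3/2)^n` members -/
lemma cover_bound {n : ℕ} {κ : Type*} (K : Finset κ) (A B : κ → Finset (Fin n → Bool))
    (h1 : ∀ F ∈ K, ∀ a ∈ A F, ∀ b ∈ B F, inter a b ≠ 1)
    (hcov : ∀ a b : Fin n → Bool, inter a b = 0 → ∃ F ∈ K, a ∈ A F ∧ b ∈ B F) :
    3 ^ n ≤ K.card * 2 ^ n := by
  rw [← dis_univ n]
  calc dis (univ : Finset (Fin n → Bool)) univ ≤ ∑ F ∈ K, dis (A F) (B F) := by
        unfold dis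
        rw [Finset.sum_comm' (t' := univ) (s' := fun _ => K) (by simp)]
        apply Finset.sum_le_sum
        intro a _
        rw [Finset.sum_comm' (t' := univ) (s' := fun _ => K) (by simp)]
        apply Finset.sum_le_sum
        intro b _
        by_cases hab : inter a b = 0
        · obtain ⟨F, hF, ha, hb⟩ := hcov a b hab
          have : (if a ∈ A F ∧ b ∈ B F ∧ inter a b = 0 then 1 else 0) ≤
              ∑ F ∈ K, (if a ∈ A F ∧ b ∈ B F ∧ inter a b = 0 then 1 else 0) :=
            Finset.single_le_sum (f := fun F => if a ∈ A F ∧ b ∈ B F ∧ inter a b = 0 then 1 else 0)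
              (fun _ _ => Nat.zero_le _) hF
          simp only [ha, hb, hab, and_self, if_true] at this
          simpa [hab] using this
        · simp [hab]
    _ ≤ ∑ F ∈ K, 2 ^ n := Finset.sum_le_sum (fun F hF => dis_le _ _ (h1 F hF))
    _ = K.card * 2 ^ n := by simp

end Pool.Agent.Helper37.Voronoi
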