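import Mathlib
import Pool.Agent.Helper37.Voronoi.Rect

/-!
# The integral quadratic gadget
-/

set_option autoImplicit false

namespace Pool.Agent.Helper37.Voronoi

open Finset

/-- literals -/
abbrev Lit (n : ℕ) : Type := Fin n × Bool

/-- nodes: a root, the literals and the ordered pairs of literals -/
abbrev Nd (n : ℕ) : Type := Option (Lit n ⊕ Lit n × Lit n)

variable {n : ℕ}

/-- the symmetric coupling matrix -/
def amat : Nd n → Nd n → ℤ
  | none, none => 0
  | none, some (Sum.inl _) => 5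
  | none, some (Sum.inr _) => 0
  | some (Sum.inl _), none => 5
  | some (Sum.inr _), none => 0
  | some (Sum.inl _), some (Sum.inl _) => 6
  | some (Sum.inl u), some (Sum.inr p) =>
      4 * ((if u = p.1 then 1 else 0) + (if u = p.2 then 1 else 0))
  | some (Sum.inr p), some (Sum.inl u) =>
      4 * ((if u = p.1 then 1 else 0) + (if u = p.2 then 1 else 0))
  | some (Sum.inr _), some (Sum.inr _) => 0

/-- the signs -/
def sgn : Nd n → ℤ
  | none => -1
  | some (Sum.inl _) => 1
  | some (Sum.inr _) => -1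

/-- the vector `b` on literals -/
def bl (b : Fin n → Bool) (u : Lit n) : ℤ := if u.2 = true ∧ b u.1 = true then 1 else 0

/-- the linear weights -/
def uvec (b : Fin n → Bool) : Nd n → ℤ
  | none => 1 + n
  | some (Sum.inl u) => 3 - 2 * bl b u
  | some (Sum.inr p) => 5 + (if p.1.1 = p.2.1 then 1 else 0) + bl b p.1 * bl b p.2

/-- the graph of `α` -/
def gr (α : Fin n → Bool) (u : Lit n) : ℤ := if u.2 = α u.1 then 1 else 0

/-- the node set of `α` -/
def sset (α : Fin n → Bool) : Nd n → ℤ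
  | none => 1
  | some (Sum.inl u) => gr α u
  | some (Sum.inr p) => gr α p.1 * gr α p.2

/-- twice the gadget value -/
def phi2 (b : Fin n → Bool) (m : Nd n → ℤ) : ℤ :=
  ∑ x, ∑ y, sgn x * sgn y * amat x y * m x * m y + 2 * ∑ x, uvec b x * m x

lemma amat_symm (x y : Nd n) : amat x y = amat y x := by
  match x, y with
  | none, none => rfl
  | none, some (Sum.inl _) => rfl
  | none, some (Sum.inr _) => rfl
  | some (Sum.inl _), none => rfl
  | some (Sum.inr _), none => rfl
  | some (Sum.inl _), some (Sum.inl _) => rfl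
  | some (Sum.inl u), some (Sum.inr p) => rfl
  | some (Sum.inr p), some (Sum.inl u) => rfl
  | some (Sum.inr _), some (Sum.inr _) => rfl

lemma amat_nonneg (x y : Nd n) : 0 ≤ amat x y := by
  match x, y with
  | none, none => simp [amat]
  | none, some (Sum.inl _) => simp [amat]
  | none, some (Sum.inr _) => simp [amat]
  | some (Sum.inl _), none => simp [amat]
  | some (Sum.inr _), none => simp [amat]
  | some (Sum.inl _), some (Sum.inl _) => simp [amat]
  | some (Sum.inl u), some (Sum.inr p) => simp only [amat]; split_ifs <;> norm_num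
  | some (Sum.inr p), some (Sum.inl u) => simp only [amat]; split_ifs <;> norm_num
  | some (Sum.inr _), some (Sum.inr _) => simp [amat]

/-- the gadget polynomial -/
def gad (b : Fin n → Bool) (ρ : ℤ) (a : Lit n → ℤ) (t : Lit n × Lit n → ℤ) : ℤ :=
  ρ * (1 + n) + ∑ u, (3 - 2 * bl b u) * a u
    + ∑ p : Lit n × Lit n, (5 + (if p.1.1 = p.2.1 then 1 else 0) + bl b p.1 * bl b p.2) * t p
    + 3 * (∑ u, a u) ^ 2 - 5 * ρ * ∑ u, a u
    - 4 * ∑ p : Lit n × Lit n, (a p.1 + a p.2) * t p

lemma phi2_eq (b : Fin n → Bool) (m : Nd n → ℤ) :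
    phi2 b m = 2 * gad b (m none) (fun u => m (some (Sum.inl u))) (fun p => m (some (Sum.inr p))) := by
  unfold phi2 gad
  simp only [Fintype.sum_option, Fintype.sum_sum_type, sgn, amat, uvec]
  set ρ := m none
  set a : Lit n → ℤ := fun u => m (some (Sum.inl u)) with ha
  set t : Lit n × Lit n → ℤ := fun p => m (some (Sum.inr p)) with ht
  have h1 : ∑ u : Lit n, ∑ p : Lit n × Lit n,
      ((1 : ℤ) * (-1) * (4 * ((if u = p.1 then 1 else 0) + (if u = p.2 then 1 else 0))) * a u * t p)
      = - 4 * ∑ p : Lit n × Lit n, (a p.1 + a p.2) * t p := by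
    rw [Finset.sum_comm, Finset.mul_sum]
    apply Finset.sum_congr rfl
    intro p _
    have : ∀ u : Lit n, (1 : ℤ) * (-1) * (4 * ((if u = p.1 then 1 else 0) + (if u = p.2 then 1 else 0))) * a u * t p
        = -4 * t p * ((if u = p.1 then a u else 0) + (if u = p.2 then a u else 0)) := by
      intro u; split_ifs <;> ring
    simp only [this]
    rw [← Finset.mul_sum, Finset.sum_add_distrib, Finset.sum_ite_eq', Finset.sum_ite_eq']
    simp
    ring
  have h2 : ∑ p : Lit n × Lit n, ∑ u : Lit n,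
      ((-1 : ℤ) * 1 * (4 * ((if u = p.1 then 1 else 0) + (if u = p.2 then 1 else 0))) * t p * a u)
      = - 4 * ∑ p : Lit n × Lit n, (a p.1 + a p.2) * t p := by
    rw [Finset.mul_sum]
    apply Finset.sum_congr rfl
    intro p _
    have : ∀ u : Lit n, (-1 : ℤ) * 1 * (4 * ((if u = p.1 then 1 else 0) + (if u = p.2 then 1 else 0))) * t p * a u
        = -4 * t p * ((if u = p.1 then a u else 0) + (if u = p.2 then a u else 0)) := by
      intro u; split_ifs <;> ring
    simp only [this]
    rw [← Finset.mul_sum, Finset.sum_add_distrib, Finset.sum_ite_eq', Finset.sum_ite_eq']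
    simp
    ring
  have h3 : ∑ u : Lit n, ∑ v : Lit n, ((1 : ℤ) * 1 * 6 * a u * a v) = 6 * (∑ u, a u) ^ 2 := by
    rw [sq, Finset.sum_mul_sum, Finset.mul_sum]
    apply Finset.sum_congr rfl
    intro u _
    rw [Finset.mul_sum]
    apply Finset.sum_congr rfl
    intro v _
    ring
  have h4 : ∑ u : Lit n, ((-1 : ℤ) * 1 * 5 * ρ * a u) = -5 * ρ * ∑ u, a u := by
    rw [Finset.mul_sum]
    apply Finset.sum_congr rfl
    intro v _
    ring
  have h5 : ∑ u : Lit n, ((1 : ℤ) * (-1) * 5 * a u * ρ) = -5 * ρ * ∑ u, a u := by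
    rw [Finset.mul_sum]
    apply Finset.sum_congr rfl
    intro v _
    ring
  simp only [Finset.sum_add_distrib]
  simp only [ha, ht] at h1 h2 h3 h4 h5 ⊢
  rw [h1, h2, h3, h4, h5]
  simp
  ring

/-- the coefficient of a pair -/
def cp (b : Fin n → Bool) (p : Lit n × Lit n) : ℤ :=
  5 + (if p.1.1 = p.2.1 then 1 else 0) + bl b p.1 * bl b p.2

lemma bl_zero_or_one (b : Fin n → Bool) (u : Lit n) : bl b u = 0 ∨ bl b u = 1 := by
  unfold bl; split_ifs <;> simp

lemma gad_sub (b : Fin n → Bool) (ρ : ℤ) (a : Lit n → ℤ) (t : Lit n × Lit n → ℤ) :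
    gad b ρ a t = gad b ρ a (fun p => a p.1 * a p.2)
      + ∑ p : Lit n × Lit n, (cp b p - 4 * (a p.1 + a p.2)) * (t p - a p.1 * a p.2) := by
  unfold gad cp
  simp only [mul_sub, sub_mul, Finset.sum_sub_distrib, Finset.mul_sum]
  have : ∀ p : Lit n × Lit n, 4 * (a p.1 + a p.2) * t p = 4 * ((a p.1 + a p.2) * t p) :=
    fun p => by ring
  simp only [this]
  have : ∀ p : Lit n × Lit n, 4 * (a p.1 + a p.2) * (a p.1 * a p.2)
      = 4 * ((a p.1 + a p.2) * (a p.1 * a p.2)) := fun p => by ring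
  simp only [this]
  ring

lemma gad_tensor (b : Fin n → Bool) (ρ : ℤ) (a : Lit n → ℤ) (ha : ∀ u, a u = 0 ∨ a u = 1) :
    gad b ρ a (fun p => a p.1 * a p.2) =
      ρ * (1 + n) + (3 - 5 * ρ) * (∑ u, a u) - 2 * (∑ u, bl b u * a u)
      + ∑ i : Fin n, (a (i, true) + a (i, false)) ^ 2 + (∑ u, bl b u * a u) ^ 2 := by
  unfold gad
  have h1 : ∑ p : Lit n × Lit n, (5 + (if p.1.1 = p.2.1 then 1 else 0) + bl b p.1 * bl b p.2)
      * (a p.1 * a p.2) = 5 * (∑ u, a u) ^ 2 + ∑ i : Fin n, (a (i, true) + a (i, false)) ^ 2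
        + (∑ u, bl b u * a u) ^ 2 := by
    have e1 : ∑ p : Lit n × Lit n, (a p.1 * a p.2) = (∑ u, a u) ^ 2 := by
      rw [sq, Finset.sum_mul_sum, Fintype.sum_prod_type]
    have e2 : ∑ p : Lit n × Lit n, (bl b p.1 * bl b p.2) * (a p.1 * a p.2)
        = (∑ u, bl b u * a u) ^ 2 := by
      rw [sq, Finset.sum_mul_sum, Fintype.sum_prod_type]
      apply Finset.sum_congr rfl
      intro u _
      apply Finset.sum_congr rfl
      intro v _
      ring
    have e3 : ∑ p : Lit n × Lit n, (if p.1.1 = p.2.1 then (1 : ℤ) else 0) * (a p.1 * a p.2)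
        = ∑ i : Fin n, (a (i, true) + a (i, false)) ^ 2 := by
      rw [Fintype.sum_prod_type, Fintype.sum_prod_type]
      apply Finset.sum_congr rfl
      intro i _
      simp only [Fintype.sum_bool]
      simp only [Fintype.sum_prod_type, Fintype.sum_bool]
      simp only [ite_mul, one_mul, zero_mul, Finset.sum_add_distrib, Finset.sum_ite_eq,
        Finset.mem_univ, if_true]
      ring
    rw [← e1, ← e2, ← e3, Finset.mul_sum, ← Finset.sum_add_distrib, ← Finset.sum_add_distrib]
    apply Finset.sum_congr rfl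
    intro p _
    ring
  have h2 : ∑ p : Lit n × Lit n, (a p.1 + a p.2) * (a p.1 * a p.2) = 2 * (∑ u, a u) ^ 2 := by
    have e1 : ∑ p : Lit n × Lit n, (a p.1 * a p.2) = (∑ u, a u) ^ 2 := by
      rw [sq, Finset.sum_mul_sum, Fintype.sum_prod_type]
    rw [← e1, Finset.mul_sum]
    apply Finset.sum_congr rfl
    intro p _
    rcases ha p.1 with h | h <;> rcases ha p.2 with h' | h' <;> rw [h, h'] <;> norm_num
  have h3 : ∑ u, (3 - 2 * bl b u) * a u = 3 * (∑ u, a u) - 2 * ∑ u, bl b u * a u := by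
    rw [Finset.mul_sum, Finset.mul_sum, ← Finset.sum_sub_distrib]
    apply Finset.sum_congr rfl
    intro u _
    ring
  simp only [h1, h2, h3]
  ring

lemma gad_tensor_one (b : Fin n → Bool) (a : Lit n → ℤ) (ha : ∀ u, a u = 0 ∨ a u = 1) :
    gad b 1 a (fun p => a p.1 * a p.2) = (∑ u, bl b u * a u - 1) ^ 2
      + ∑ i : Fin n, (a (i, true) + a (i, false) - 1) ^ 2 := by
  rw [gad_tensor b 1 a ha]
  have h1 : ∑ i : Fin n, (a (i, true) + a (i, false) - 1) ^ 2
      = ∑ i : Fin n, (a (i, true) + a (i, false)) ^ 2 - 2 * (∑ u, a u) + n := by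
    rw [Fintype.sum_prod_type]
    simp only [Fintype.sum_bool]
    have : (n : ℤ) = ∑ _i : Fin n, 1 := by simp
    rw [this, Finset.mul_sum, ← Finset.sum_sub_distrib, ← Finset.sum_add_distrib]
    apply Finset.sum_congr rfl
    intro i _
    ring
  rw [h1]
  ring

/-- pointwise comparison -/
lemma pair_ineq (b : Fin n → Bool) (a : Lit n → ℤ) (ha : ∀ u, a u = 0 ∨ a u = 1)
    (t : Lit n × Lit n → ℤ) (ht : ∀ p, t p = 0 ∨ t p = 1) (p : Lit n × Lit n) :
    |t p - a p.1 * a p.2| ≤ (cp b p - 4 * (a p.1 + a p.2)) * (t p - a p.1 * a p.2) := by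
  have hc : cp b p = 5 ∨ cp b p = 6 ∨ cp b p = 7 := by
    unfold cp
    rcases bl_zero_or_one b p.1 with h | h <;> rcases bl_zero_or_one b p.2 with h' | h' <;>
      rw [h, h'] <;> split_ifs <;> norm_num
  rcases hc with hc | hc | hc <;> rcases ha p.1 with h | h <;> rcases ha p.2 with h' | h' <;>
    rcases ht p with h'' | h'' <;> rw [hc, h, h', h''] <;> norm_num

lemma gad_ge (b : Fin n → Bool) (ρ : ℤ) (a : Lit n → ℤ) (ha : ∀ u, a u = 0 ∨ a u = 1)
    (t : Lit n × Lit n → ℤ) (ht : ∀ p, t p = 0 ∨ t p = 1) :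
    gad b ρ a (fun p => a p.1 * a p.2) + ∑ p : Lit n × Lit n, |t p - a p.1 * a p.2|
      ≤ gad b ρ a t := by
  rw [gad_sub b ρ a t]
  gcongr with p _
  exact pair_ineq b a ha t ht p

lemma sum_bl_gr (α b : Fin n → Bool) : ∑ u, bl b u * gr α u = (inter α b : ℤ) := by
  unfold inter
  rw [Finset.card_filter, Fintype.sum_prod_type]
  push_cast
  apply Finset.sum_congr rfl
  intro i _
  rw [Fintype.sum_bool]
  simp only [bl, gr]
  cases α i <;> cases b i <;> simp

lemma gr_zero_or_one (α : Fin n → Bool) (u : Lit n) : gr α u = 0 ∨ gr α u = 1 := by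
  unfold gr; split_ifs <;> simp

lemma gr_sum (α : Fin n → Bool) (i : Fin n) : gr α (i, true) + gr α (i, false) = 1 := by
  unfold gr
  cases α i <;> simp

/-- value at `S_α` -/
lemma phi2_sset (α b : Fin n → Bool) : phi2 b (sset α) = 2 * ((inter α b : ℤ) - 1) ^ 2 := by
  rw [phi2_eq]
  simp only [sset]
  rw [gad_tensor_one b (gr α) (gr_zero_or_one α), sum_bl_gr]
  simp [gr_sum]

/-- nonnegativity and the zero set -/
lemma phi2_nonneg (b : Fin n → Bool) (m : Nd n → ℤ) (hm : ∀ x, m x = 0 ∨ m x = 1) :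
    phi2 b m = 0 ∧ (m = 0 ∨ ∃ α, m = sset α) ∨ 2 ≤ phi2 b m := by
  rw [phi2_eq]
  set ρ := m none with hρ
  set a : Lit n → ℤ := fun u => m (some (Sum.inl u)) with ha
  set t : Lit n × Lit n → ℤ := fun p => m (some (Sum.inr p)) with ht
  have ha' : ∀ u, a u = 0 ∨ a u = 1 := fun u => hm _
  have ht' : ∀ p, t p = 0 ∨ t p = 1 := fun p => hm _
  have h1 := gad_ge b ρ a ha' t ht'
  have h2 : 0 ≤ ∑ p : Lit n × Lit n, |t p - a p.1 * a p.2| :=
    Finset.sum_nonneg (fun p _ => abs_nonneg _)
  have h3 : ∑ p : Lit n × Lit n, |t p - a p.1 * a p.2| = 0 → ∀ p, t p = a p.1 * a p.2 := by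
    intro h p
    have := (Finset.sum_eq_zero_iff_of_nonneg (fun p _ => abs_nonneg _)).1 h p (Finset.mem_univ p)
    rw [abs_eq_zero, sub_eq_zero] at this
    exact this
  rcases hm none with h0 | h0
  · -- root absent
    rw [← hρ] at h0
    have h4 := gad_tensor b ρ a ha'
    rw [h0] at h4
    have hT : ∑ u, bl b u * a u ≤ ∑ u, a u := by
      apply Finset.sum_le_sum
      intro u _
      rcases bl_zero_or_one b u with h | h <;> rcases ha' u with h' | h' <;> rw [h, h'] <;> norm_num
    have hS : 0 ≤ ∑ u, a u := Finset.sum_nonneg (fun u _ => by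
      rcases ha' u with h' | h' <;> rw [h'] <;> norm_num)
    have hQ : 0 ≤ ∑ i : Fin n, (a (i, true) + a (i, false)) ^ 2 :=
      Finset.sum_nonneg (fun i _ => sq_nonneg _)
    have h5 : ∑ u, a u ≤ gad b ρ a (fun p => a p.1 * a p.2) := by
      rw [h0, h4]
      nlinarith [sq_nonneg (∑ u, bl b u * a u)]
    by_cases hz : gad b ρ a t = 0
    · left
      refine ⟨by rw [hz]; norm_num, Or.inl ?_⟩
      have hS0 : ∑ u, a u = 0 := by linarith
      have hsum0 : ∑ p : Lit n × Lit n, |t p - a p.1 * a p.2| = 0 := by linarith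
      have ha0 : ∀ u, a u = 0 := by
        intro u
        exact (Finset.sum_eq_zero_iff_of_nonneg (fun u _ => by
          rcases ha' u with h' | h' <;> rw [h'] <;> norm_num)).1 hS0 u (Finset.mem_univ u)
      have ht0 : ∀ p, t p = 0 := by
        intro p
        rw [h3 hsum0 p, ha0, zero_mul]
      funext x
      match x with
      | none => exact h0
      | some (Sum.inl u) => exact ha0 u
      | some (Sum.inr p) => exact ht0 p
    · right
      have : 0 ≤ gad b ρ a t := by linarith
      have : 1 ≤ gad b ρ a t := by omega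
      linarith
  · -- root present
    rw [← hρ] at h0
    have h4 := gad_tensor_one b a ha'
    have hQ : 0 ≤ ∑ i : Fin n, (a (i, true) + a (i, false) - 1) ^ 2 :=
      Finset.sum_nonneg (fun i _ => sq_nonneg _)
    have h5 : 0 ≤ gad b ρ a (fun p => a p.1 * a p.2) := by
      rw [h0, h4]
      nlinarith [sq_nonneg (∑ u, bl b u * a u - 1)]
    by_cases hz : gad b ρ a t = 0
    · left
      refine ⟨by rw [hz]; norm_num, Or.inr ?_⟩
      have hsum0 : ∑ p : Lit n × Lit n, |t p - a p.1 * a p.2| = 0 := by linarith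
      have hg0 : gad b 1 a (fun p => a p.1 * a p.2) = 0 := by
        rw [h0] at h1 h5 hz
        linarith
      rw [h4] at hg0
      have hQ0 : ∑ i : Fin n, (a (i, true) + a (i, false) - 1) ^ 2 = 0 := by
        nlinarith [sq_nonneg (∑ u, bl b u * a u - 1)]
      have hi : ∀ i, a (i, true) + a (i, false) = 1 := by
        intro i
        have := (Finset.sum_eq_zero_iff_of_nonneg (fun i _ => sq_nonneg _)).1 hQ0 i
          (Finset.mem_univ i)
        have := pow_eq_zero_iff (two_ne_zero) |>.1 this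
        linarith
      refine ⟨fun i => decide (a (i, true) = 1), ?_⟩
      have hgr : ∀ u, a u = gr (fun i => decide (a (i, true) = 1)) u := by
        rintro ⟨i, x⟩
        unfold gr
        have h6 := hi i
        rcases ha' (i, true) with h7 | h7 <;> cases x <;> simp [h7] at h6 ⊢ <;> linarith
      funext x
      match x with
      | none => exact h0
      | some (Sum.inl u) => exact hgr u
      | some (Sum.inr p) =>
        change t p = _
        rw [h3 hsum0 p, hgr p.1, hgr p.2]
        rfl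
    · right
      have : 0 ≤ gad b ρ a t := by linarith
      have : 1 ≤ gad b ρ a t := by omega
      linarith

end Pool.Agent.Helper37.Voronoi
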