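import Mathlib
import Pool.Agent.Helper37.Voronoi.Polytope
import Pool.Agent.Helper37.Voronoi.Rect

/-!
# Lower bound for the extension complexity
-/

set_option autoImplicit false

namespace Pool.Agent.Helper37.Voronoi

open Module

variable {E : Type*} [NormedAddCommGroup E] [NormedSpace ℝ E]

lemma lower_bound {n : ℕ} (P : Set E) (x : (Fin n → Bool) → E) (hx : ∀ b, x b ∈ P)
    (l : (Fin n → Bool) → (E →ₗ[ℝ] ℝ)) (c : (Fin n → Bool) → ℝ)
    (hval : ∀ a, ∀ y ∈ P, l a y ≤ c a)
    (h1 : ∀ a b, inter a b = 1 → l a (x b) = c a)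
    (h0 : ∀ a b, inter a b = 0 → l a (x b) < c a)
    (m : ℕ) (Q : Set (EuclideanSpace ℝ (Fin m))) (π : EuclideanSpace ℝ (Fin m) →ₗ[ℝ] E)
    (hQ : IsPolytope Q) (hP : π '' Q = P) (k : ℕ) (hk : (facets Q).encard = k) :
    3 ^ n ≤ (k + 1) * 2 ^ n := by
  classical
  have hfin := hQ.finite_facets
  -- lifted points
  have hq : ∀ b, ∃ q ∈ Q, π q = x b := by
    intro b
    have := hx b
    rw [← hP] at this
    exact this
  choose q hqQ hqx using hq
  let L : (Fin n → Bool) → (EuclideanSpace ℝ (Fin m) →L[ℝ] ℝ) :=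
    fun a => LinearMap.toContinuousLinearMap ((l a) ∘ₗ π)
  have hL : ∀ a y, L a y = l a (π y) := fun a y => rfl
  let K : Finset (Option (Set (EuclideanSpace ℝ (Fin m)))) := hfin.toFinset.insertNone
  have hKcard : K.card = k + 1 := by
    have : hfin.toFinset.card = k := by
      have h := hfin.encard_eq_coe_toFinset_card
      rw [hk] at h
      exact_mod_cast h.symm
    simp only [K, Finset.card_insertNone, this]
  let A : Option (Set (EuclideanSpace ℝ (Fin m))) → Finset (Fin n → Bool) := fun o =>
    match o with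
    | none => {fun _ => false}
    | some F => Finset.univ.filter (fun a => {y ∈ Q | L a y = c a} ⊆ F)
  let B : Option (Set (EuclideanSpace ℝ (Fin m))) → Finset (Fin n → Bool) := fun o =>
    match o with
    | none => Finset.univ
    | some F => Finset.univ.filter (fun b => q b ∉ F)
  rw [← hKcard]
  apply cover_bound K A B
  · intro o _ a ha b hb hab
    match o with
    | none =>
      simp only [A, Finset.mem_singleton] at ha
      subst ha
      simp [inter] at hab
    | some F =>
      simp only [A, B, Finset.mem_filter, Finset.mem_univ, true_and] at ha hb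
      apply hb
      apply ha
      refine ⟨hqQ b, ?_⟩
      rw [hL, hqx]
      exact h1 a b hab
  · intro a b hab
    by_cases ha : a = fun _ => false
    · refine ⟨none, by simp [K], ?_, ?_⟩
      · simp [A, ha]
      · simp [B]
    · -- pick a coordinate in `a`
      obtain ⟨i, hi⟩ : ∃ i, a i = true := by
        by_contra hcon
        push Not at hcon
        apply ha
        funext i
        simpa using hcon i
      let e : Fin n → Bool := fun j => decide (j = i)
      have he : inter a e = 1 := by
        unfold inter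
        rw [Finset.card_eq_one]
        refine ⟨i, ?_⟩
        ext j
        simp only [e, Finset.mem_filter, Finset.mem_univ, true_and, decide_eq_true_eq,
          Finset.mem_singleton]
        constructor
        · exact fun h => h.2
        · rintro rfl; exact ⟨hi, rfl⟩
      obtain ⟨F, hF, hsub, hnot⟩ := hQ.exists_facet (L a) (c a)
        (fun y hy => by
          rw [hL]
          exact hval a _ (by rw [← hP]; exact ⟨y, hy, rfl⟩))
        ⟨q e, hqQ e, by rw [hL, hqx]; exact h1 a e he⟩ (q b) (hqQ b)
        (by rw [hL, hqx]; exact h0 a b hab)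
      refine ⟨some F, by simp [K, hF], ?_, ?_⟩
      · simp only [A, Finset.mem_filter, Finset.mem_univ, true_and]
        exact hsub
      · simp only [B, Finset.mem_filter, Finset.mem_univ, true_and]
        exact hnot

/-- lower bound for `xc` -/
lemma xc_lower {n : ℕ} {N : ℕ} (P : Set (EuclideanSpace ℝ (Fin N))) (hPoly : IsPolytope P)
    (x : (Fin n → Bool) → EuclideanSpace ℝ (Fin N)) (hx : ∀ b, x b ∈ P)
    (l : (Fin n → Bool) → (EuclideanSpace ℝ (Fin N) →ₗ[ℝ] ℝ)) (c : (Fin n → Bool) → ℝ)
    (hval : ∀ a, ∀ y ∈ P, l a y ≤ c a)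
    (h1 : ∀ a b, inter a b = 1 → l a (x b) = c a)
    (h0 : ∀ a b, inter a b = 0 → l a (x b) < c a) :
    3 ^ n ≤ (xc P + 1) * 2 ^ n := by
  have hne : {k : ℕ | ∃ (m : ℕ) (Q : Set (EuclideanSpace ℝ (Fin m)))
    (π : EuclideanSpace ℝ (Fin m) →ₗ[ℝ] EuclideanSpace ℝ (Fin N)),
      IsPolytope Q ∧ (facets Q).encard = k ∧ π '' Q = P}.Nonempty := by
    refine ⟨(facets P).ncard, N, P, LinearMap.id, hPoly, ?_, ?_⟩
    · rw [Set.ncard_def, ENat.natCast_toNat]
      rw [Set.encard_ne_top_iff]
      exact hPoly.finite_facets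
    · ext y; simp
  obtain ⟨m, Q, π, hQ, hk, hP⟩ := Nat.sInf_mem hne
  exact lower_bound P x hx l c hval h1 h0 m Q π hQ hP _ hk

end Pool.Agent.Helper37.Voronoi
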