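import Mathlib
import Pool.Agent.Helper37.Voronoi.Dual
import Pool.Agent.Helper37.Voronoi.Gadget
import Pool.Agent.Helper37.Voronoi.LowerBound

/-!
# Assembly
-/

set_option autoImplicit false

namespace Pool.Agent.Helper37.Voronoi

open Module Finset

variable {n : ℕ}

/-! ### symmetry -/

/-- flipping literals -/
def litTwist (β : Fin n → Bool) : Lit n ≃ Lit n where
  toFun u := (u.1, xor u.2 (β u.1))
  invFun u := (u.1, xor u.2 (β u.1))
  left_inv u := by simp
  right_inv u := by simp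

/-- flipping literals, on nodes -/
def twist (β : Fin n → Bool) : Nd n ≃ Nd n :=
  Equiv.optionCongr (Equiv.sumCongr (litTwist β) (Equiv.prodCongr (litTwist β) (litTwist β)))

lemma twist_none (β : Fin n → Bool) : twist β none = none := rfl

lemma twist_inl (β : Fin n → Bool) (u : Lit n) :
    twist β (some (Sum.inl u)) = some (Sum.inl (litTwist β u)) := rfl

lemma twist_inr (β : Fin n → Bool) (p : Lit n × Lit n) :
    twist β (some (Sum.inr p)) = some (Sum.inr (litTwist β p.1, litTwist β p.2)) := rfl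

lemma amat_twist (β : Fin n → Bool) (x y : Nd n) : amat (twist β x) (twist β y) = amat x y := by
  match x, y with
  | none, none => rfl
  | none, some (Sum.inl _) => rfl
  | none, some (Sum.inr _) => rfl
  | some (Sum.inl _), none => rfl
  | some (Sum.inr _), none => rfl
  | some (Sum.inl _), some (Sum.inl _) => rfl
  | some (Sum.inl u), some (Sum.inr p) =>
    rw [twist_inl, twist_inr]; simp only [amat, (litTwist β).injective.eq_iff]
  | some (Sum.inr p), some (Sum.inl u) =>
    rw [twist_inl, twist_inr]; simp only [amat, (litTwist β).injective.eq_iff]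
  | some (Sum.inr _), some (Sum.inr _) => rfl

lemma sgn_twist (β : Fin n → Bool) (x : Nd n) : sgn (twist β x) = sgn x := by
  match x with
  | none => rfl
  | some (Sum.inl u) => rfl
  | some (Sum.inr p) => rfl

lemma gr_twist (β : Fin n → Bool) (u : Lit n) : gr (fun _ => false) (litTwist β u) = gr β u := by
  have h : ∀ x y : Bool, ((xor x y = false) ↔ (x = y)) := by decide
  unfold gr
  change (if (xor u.2 (β u.1)) = false then (1 : ℤ) else 0) = _
  simp only [h]

lemma sset_twist (β : Fin n → Bool) (x : Nd n) : sset (fun _ => false) (twist β x) = sset β x := by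
  match x with
  | none => rfl
  | some (Sum.inl u) => rw [twist_inl]; exact gr_twist β u
  | some (Sum.inr p) =>
    rw [twist_inr]
    simp only [sset, gr_twist]

lemma sgn_sq (x : Nd n) : sgn x * sgn x = 1 := by
  match x with
  | none => rfl
  | some (Sum.inl u) => rfl
  | some (Sum.inr p) => rfl

/-- the coupling matrix over the reals -/
def areal : Nd n → Nd n → ℝ := fun x y => (amat x y : ℝ)

/-- the vectors `k_α` -/
def kvec (α : Fin n → Bool) : Nd n → ℤ := fun x => sgn x * sset α x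

/-- cast to the reals -/
def toR (k : Nd n → ℤ) : Nd n → ℝ := fun x => (k x : ℝ)

lemma kvec_twist (α : Fin n → Bool) : toR (kvec α) = toR (kvec (fun _ => false)) ∘ twist α := by
  funext x
  simp only [toR, kvec, Function.comp_apply, sgn_twist, sset_twist]

lemma aop_twist (β : Fin n → Bool) (x : Nd n → ℝ) :
    aop areal (x ∘ twist β) = aop areal x ∘ twist β := by
  funext v
  simp only [aop_apply, Function.comp_apply]
  rw [← (twist β).sum_comp (fun y => areal (twist β v) y * x y)]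
  apply Finset.sum_congr rfl
  intro y _
  simp only [areal, amat_twist]

lemma lop_twist (ε : ℝ) (β : Fin n → Bool) (x : Nd n → ℝ) :
    lop areal ε (x ∘ twist β) = lop areal ε x ∘ twist β := by
  rw [lop_apply, lop_apply, aop_twist]
  rfl

lemma inv_twist (ε : ℝ) (M : (Nd n → ℝ) →ₗ[ℝ] (Nd n → ℝ)) (h1 : ∀ x, lop areal ε (M x) = x)
    (h2 : ∀ x, M (lop areal ε x) = x) (β : Fin n → Bool) (x : Nd n → ℝ) :
    M (x ∘ twist β) = M x ∘ twist β := by
  conv_lhs => rw [← h1 x, ← lop_twist, h2]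

lemma dot_twist (β : Fin n → Bool) (x y : Nd n → ℝ) :
    (x ∘ twist β) ⬝ᵥ (y ∘ twist β) = x ⬝ᵥ y := by
  simp only [dotProduct, Function.comp_apply]
  exact (twist β).sum_comp (fun v => x v * y v)

lemma rem_twist (ε : ℝ) (M : (Nd n → ℝ) →ₗ[ℝ] (Nd n → ℝ)) (h1 : ∀ x, lop areal ε (M x) = x)
    (h2 : ∀ x, M (lop areal ε x) = x) (α : Fin n → Bool) :
    aop areal (toR (kvec α)) ⬝ᵥ M (aop areal (toR (kvec α)))
      = aop areal (toR (kvec (fun _ => false))) ⬝ᵥ M (aop areal (toR (kvec (fun _ => false)))) := by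
  rw [kvec_twist, aop_twist, inv_twist ε M h1 h2, dot_twist]

/-! ### the points -/

/-- coordinates of the points `x_b` -/
noncomputable def vvec (ε δ : ℝ) (b : Fin n → Bool) : Nd n → ℝ := fun x =>
  sgn x * (1 / 2 - ε * uvec b x) + (if x = none then -δ / 2 else 0)

lemma slack_eq (ε δ : ℝ) (M : (Nd n → ℝ) →ₗ[ℝ] (Nd n → ℝ)) (h1 : ∀ x, lop areal ε (M x) = x)
    (h2 : ∀ x, M (lop areal ε x) = x) (b : Fin n → Bool) (k : Nd n → ℤ) :
    toR k ⬝ᵥ M (toR k) - 2 * (vvec ε δ b ⬝ᵥ toR k) =
      ((∑ x, ((sgn x * k x) ^ 2 - sgn x * k x) : ℤ) : ℝ) + ε * (phi2 b (fun x => sgn x * k x) : ℝ)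
      + ε ^ 2 * (aop areal (toR k) ⬝ᵥ M (aop areal (toR k))) - δ * ((sgn (none : Nd n) * k none : ℤ) : ℝ) := by
  have hsym : ∀ x y : Nd n, areal x y = areal y x := fun x y => by simp only [areal, amat_symm x y]
  rw [inv_quad hsym h1 h2]
  have hs : ∀ x : Nd n, (sgn x : ℝ) * sgn x = 1 := fun x => by exact_mod_cast sgn_sq x
  have e1 : toR k ⬝ᵥ toR k = ∑ x, ((sgn x : ℝ) * k x) ^ 2 := by
    simp only [dotProduct, toR]
    apply Finset.sum_congr rfl
    intro x _
    calc (k x : ℝ) * k x = ((sgn x : ℝ) * sgn x) * (k x * k x) := by rw [hs]; ring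
      _ = _ := by ring
  have e2 : toR k ⬝ᵥ aop areal (toR k) = ∑ x, ∑ y, (sgn x : ℝ) * sgn y * amat x y
      * (sgn x * k x) * (sgn y * k y) := by
    simp only [dotProduct, toR, aop_apply, areal]
    apply Finset.sum_congr rfl
    intro x _
    rw [Finset.mul_sum]
    apply Finset.sum_congr rfl
    intro y _
    calc (k x : ℝ) * (amat x y * k y)
        = ((sgn x : ℝ) * sgn x) * ((sgn y : ℝ) * sgn y) * (k x * (amat x y * k y)) := by
          rw [hs, hs]; ring
      _ = _ := by ring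
  have e3 : vvec ε δ b ⬝ᵥ toR k = (∑ x, (sgn x : ℝ) * k x) / 2
      - ε * ∑ x, (uvec b x : ℝ) * (sgn x * k x) - δ / 2 * k none := by
    simp only [dotProduct, toR, vvec, add_mul, Finset.sum_add_distrib, ite_mul, zero_mul,
      Finset.sum_ite_eq', Finset.mem_univ, if_true]
    rw [Finset.sum_div, Finset.mul_sum, ← Finset.sum_sub_distrib]
    have : ∀ x, (sgn x : ℝ) * (1 / 2 - ε * uvec b x) * k x
        = (sgn x : ℝ) * k x / 2 - ε * (uvec b x * (sgn x * k x)) := fun x => by ring
    simp only [this]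
    ring
  rw [e1, e2, e3]
  unfold phi2
  push_cast
  have hn : ((sgn (none : Nd n) : ℤ) : ℝ) = -1 := by simp [sgn]
  rw [hn, Finset.sum_sub_distrib]
  ring

lemma phi2_abs_le (b : Fin n → Bool) (m : Nd n → ℤ) :
    |phi2 b m| ≤ (∑ x : Nd n, ∑ y : Nd n, amat x y + 2 * ∑ b : Fin n → Bool, ∑ x : Nd n, |uvec b x|)
      * ∑ x, (m x) ^ 2 := by
  set S := ∑ x, (m x) ^ 2 with hS
  have hS0 : 0 ≤ S := Finset.sum_nonneg (fun x _ => sq_nonneg _)
  have h1 : ∀ x, (m x) ^ 2 ≤ S := fun x =>
    Finset.single_le_sum (f := fun x => (m x) ^ 2) (fun x _ => sq_nonneg _) (Finset.mem_univ x)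
  have h2 : ∀ x, |m x| ≤ S := by
    intro x
    refine le_trans ?_ (h1 x)
    rw [← sq_abs]
    rcases (abs_nonneg (m x)).eq_or_lt with h | h
    · rw [← h]; norm_num
    · nlinarith
  have h3 : ∀ x y, |m x| * |m y| ≤ S := by
    intro x y
    have := h1 x
    have := h1 y
    rw [← sq_abs] at *
    nlinarith [sq_nonneg (|m x| - |m y|), sq_abs (m x), sq_abs (m y)]
  have hsg : ∀ x : Nd n, |sgn x| = 1 := by
    intro x
    match x with
    | none => rfl
    | some (Sum.inl u) => rfl
    | some (Sum.inr p) => rfl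
  unfold phi2
  calc |∑ x, ∑ y, sgn x * sgn y * amat x y * m x * m y + 2 * ∑ x, uvec b x * m x|
      ≤ |∑ x, ∑ y, sgn x * sgn y * amat x y * m x * m y| + |2 * ∑ x, uvec b x * m x| :=
        abs_add_le _ _
    _ ≤ ∑ x, ∑ y, amat x y * S + 2 * ∑ x, |uvec b x| * S := by
        apply add_le_add
        · refine (Finset.abs_sum_le_sum_abs _ _).trans ?_
          apply Finset.sum_le_sum
          intro x _
          refine (Finset.abs_sum_le_sum_abs _ _).trans ?_
          apply Finset.sum_le_sum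
          intro y _
          rw [abs_mul, abs_mul, abs_mul, abs_mul, hsg, hsg, abs_of_nonneg (amat_nonneg x y), one_mul,
            one_mul, mul_assoc]
          exact mul_le_mul_of_nonneg_left (h3 x y) (amat_nonneg x y)
        · rw [abs_mul, abs_two]
          apply mul_le_mul_of_nonneg_left _ (by norm_num)
          refine (Finset.abs_sum_le_sum_abs _ _).trans ?_
          apply Finset.sum_le_sum
          intro x _
          rw [abs_mul]
          exact mul_le_mul_of_nonneg_left (h2 x) (abs_nonneg _)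
    _ ≤ ∑ x, ∑ y, amat x y * S + 2 * ∑ b : Fin n → Bool, ∑ x, |uvec b x| * S := by
        have : ∑ x, |uvec b x| * S ≤ ∑ b : Fin n → Bool, ∑ x, |uvec b x| * S :=
          Finset.single_le_sum (f := fun b : Fin n → Bool => ∑ x, |uvec b x| * S)
            (fun b _ => Finset.sum_nonneg (fun x _ => mul_nonneg (abs_nonneg _) hS0))
            (Finset.mem_univ b)
        linarith
    _ = _ := by
        simp only [← Finset.sum_mul]
        ring

/-- nonnegativity of the slack -/
lemma slack_nonneg (ε δ : ℝ) (hε : 0 < ε) (hδ0 : 0 ≤ δ) (hδ : δ ≤ 2 * ε)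
    (M : (Nd n → ℝ) →ₗ[ℝ] (Nd n → ℝ)) (h1 : ∀ x, lop areal ε (M x) = x)
    (h2 : ∀ x, M (lop areal ε x) = x)
    (hpsd : ∀ x : Nd n → ℝ, 0 ≤ x ⬝ᵥ M x)
    (hδR : δ = ε ^ 2 * (aop areal (toR (kvec (n := n) (fun _ => false)))
      ⬝ᵥ M (aop areal (toR (kvec (fun _ => false))))))
    (K : ℝ) (hK : ∀ (b : Fin n → Bool) (m : Nd n → ℤ), |(phi2 b m : ℝ)| ≤ K * ∑ x, (m x : ℝ) ^ 2)
    (hsmall : (ε * K + δ) * (2 + Fintype.card (Nd n)) ≤ 1)
    (b : Fin n → Bool) (k : Nd n → ℤ) :
    0 ≤ toR k ⬝ᵥ M (toR k) - 2 * (vvec ε δ b ⬝ᵥ toR k) := by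
  rw [slack_eq ε δ M h1 h2 b k]
  set m : Nd n → ℤ := fun x => sgn x * k x with hm
  have hm' : ∀ x, sgn x * k x = m x := fun x => rfl
  simp only [hm']
  have hR := hpsd (aop areal (toR k))
  have hR' : 0 ≤ ε ^ 2 * (aop areal (toR k) ⬝ᵥ M (aop areal (toR k))) := by positivity
  by_cases h01 : ∀ x, m x = 0 ∨ m x = 1
  · have hz : ∑ x, ((m x) ^ 2 - m x) = 0 := by
      apply Finset.sum_eq_zero
      intro x _
      rcases h01 x with h | h <;> rw [h] <;> norm_num
    rw [hz]
    rcases phi2_nonneg b m h01 with ⟨hp, h | ⟨α, hα⟩⟩ | hp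
    · rw [hp, h]
      simp only [Int.cast_zero, mul_zero, Pi.zero_apply, sub_zero, zero_add]
      exact hR'
    · have hk : k = kvec α := by
        funext x
        have h3 : m x = sset α x := by rw [hα]
        simp only [kvec]
        rw [← h3, hm]
        simp only
        rw [← mul_assoc, sgn_sq, one_mul]
      rw [hp]
      have h4 : m none = 1 := by rw [hα]; rfl
      rw [h4, hk, rem_twist ε M h1 h2, ← hδR]
      simp
    · have h5 : (2 : ℝ) ≤ (phi2 b m : ℝ) := by exact_mod_cast hp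
      have h6 : ε * 2 ≤ ε * (phi2 b m : ℝ) := by gcongr
      have h7 : δ * ((m none : ℤ) : ℝ) ≤ δ := by
        rcases h01 none with h | h <;> rw [h] <;> simp [hδ0]
      simp only [Int.cast_zero]
      linarith
  · -- large vectors
    push Not at h01
    obtain ⟨x₀, hx0, hx1⟩ := h01
    set D : ℤ := ∑ x, ((m x) ^ 2 - m x) with hD
    have hnn : ∀ x, 0 ≤ (m x) ^ 2 - m x := by
      intro x
      have : 0 ≤ m x * (m x - 1) := by
        rcases le_or_gt (m x) 0 with h | h
        · nlinarith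
        · nlinarith
      nlinarith
    have hD1 : 1 ≤ D := by
      have h3 : (m x₀) ^ 2 - m x₀ ≤ D :=
        Finset.single_le_sum (f := fun x => (m x) ^ 2 - m x) (fun x _ => hnn x) (Finset.mem_univ x₀)
      have h4 : 1 ≤ (m x₀) ^ 2 - m x₀ := by
        rcases lt_or_gt_of_ne hx0 with h | h
        · nlinarith
        · have : 2 ≤ m x₀ := by omega
          nlinarith
      linarith
    have hS : ∑ x, (m x) ^ 2 ≤ 2 * D + Fintype.card (Nd n) := by
      have : (Fintype.card (Nd n) : ℤ) = ∑ _x : Nd n, 1 := by simp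
      rw [this, hD, Finset.mul_sum, ← Finset.sum_add_distrib]
      apply Finset.sum_le_sum
      intro x _
      nlinarith [sq_nonneg (m x - 1)]
    have hSr : ∑ x, (m x : ℝ) ^ 2 ≤ 2 * (D : ℝ) + Fintype.card (Nd n) := by exact_mod_cast hS
    have hD1r : (1 : ℝ) ≤ D := by exact_mod_cast hD1
    have hSr2 : ∑ x, (m x : ℝ) ^ 2 ≤ (2 + Fintype.card (Nd n)) * D := by
      have : (Fintype.card (Nd n) : ℝ) ≤ Fintype.card (Nd n) * D := by
        have h0 : (0 : ℝ) ≤ Fintype.card (Nd n) := by positivity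
        nlinarith
      linarith
    have hS0 : 0 ≤ ∑ x, (m x : ℝ) ^ 2 := Finset.sum_nonneg (fun x _ => sq_nonneg _)
    have h3 := hK b m
    have h4 : -(K * ∑ x, (m x : ℝ) ^ 2) ≤ (phi2 b m : ℝ) := (abs_le.1 h3).1
    have h5 : ((m none : ℤ) : ℝ) ≤ ∑ x, (m x : ℝ) ^ 2 := by
      have h6 : (m none) ≤ ∑ x, (m x) ^ 2 := by
        have h7 : (m none) ^ 2 ≤ ∑ x, (m x) ^ 2 :=
          Finset.single_le_sum (f := fun x => (m x) ^ 2) (fun x _ => sq_nonneg _)
            (Finset.mem_univ none)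
        have := hnn none
        linarith
      exact_mod_cast h6
    have h6 : δ * ((m none : ℤ) : ℝ) ≤ δ * ∑ x, (m x : ℝ) ^ 2 := by gcongr
    have h7 : -(ε * K * ∑ x, (m x : ℝ) ^ 2) ≤ ε * (phi2 b m : ℝ) := by
      have := mul_le_mul_of_nonneg_left h4 hε.le
      linarith
    have hK0 : 0 ≤ K * ∑ x, (m x : ℝ) ^ 2 := (abs_nonneg _).trans h3
    have hpos : 0 < ∑ x, (m x : ℝ) ^ 2 := by
      have h8 : (1 : ℝ) ≤ ∑ x, (m x : ℝ) ^ 2 := by
        have h9 : (1 : ℤ) ≤ ∑ x, (m x) ^ 2 := by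
          have h10 : (m x₀) ^ 2 ≤ ∑ x, (m x) ^ 2 :=
            Finset.single_le_sum (f := fun x => (m x) ^ 2) (fun x _ => sq_nonneg _)
              (Finset.mem_univ x₀)
          have : 0 < (m x₀) ^ 2 := by positivity
          linarith
        exact_mod_cast h9
      linarith
    have hK0' : 0 ≤ K := by
      by_contra hneg
      push Not at hneg
      have := mul_neg_of_neg_of_pos hneg hpos
      linarith
    have h8 : (ε * K + δ) * ∑ x, (m x : ℝ) ^ 2 ≤ D := by
      calc (ε * K + δ) * ∑ x, (m x : ℝ) ^ 2 ≤ (ε * K + δ) * ((2 + Fintype.card (Nd n)) * D) := by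
            apply mul_le_mul_of_nonneg_left hSr2
            positivity
        _ = ((ε * K + δ) * (2 + Fintype.card (Nd n))) * D := by ring
        _ ≤ 1 * D := by gcongr
        _ = D := one_mul _
    have h9 : (ε * K + δ) * ∑ x, (m x : ℝ) ^ 2
        = ε * K * ∑ x, (m x : ℝ) ^ 2 + δ * ∑ x, (m x : ℝ) ^ 2 := by ring
    linarith

/-- the slack at `k_α` -/
lemma slack_kvec (ε δ : ℝ) (M : (Nd n → ℝ) →ₗ[ℝ] (Nd n → ℝ)) (h1 : ∀ x, lop areal ε (M x) = x)
    (h2 : ∀ x, M (lop areal ε x) = x)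
    (hδR : δ = ε ^ 2 * (aop areal (toR (kvec (n := n) (fun _ => false)))
      ⬝ᵥ M (aop areal (toR (kvec (fun _ => false))))))
    (α b : Fin n → Bool) :
    toR (kvec α) ⬝ᵥ M (toR (kvec α)) - 2 * (vvec ε δ b ⬝ᵥ toR (kvec α))
      = 2 * ε * ((inter α b : ℝ) - 1) ^ 2 := by
  rw [slack_eq ε δ M h1 h2 b, rem_twist ε M h1 h2, ← hδR]
  have hm : ∀ x, sgn x * kvec α x = sset α x := by
    intro x
    simp only [kvec]
    rw [← mul_assoc, sgn_sq, one_mul]
  have h01 : ∀ x, sset α x = 0 ∨ sset α x = 1 := by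
    intro x
    match x with
    | none => right; rfl
    | some (Sum.inl u) => exact gr_zero_or_one α u
    | some (Sum.inr p) =>
      rcases gr_zero_or_one α p.1 with h | h <;> rcases gr_zero_or_one α p.2 with h' | h' <;>
        simp [sset, h, h']
  simp only [hm]
  have hz : ∑ x, ((sset α x) ^ 2 - sset α x) = 0 := by
    apply Finset.sum_eq_zero
    intro x _
    rcases h01 x with h | h <;> rw [h] <;> norm_num
  have hfun : (fun x => sset α x) = sset α := rfl
  rw [hz, hfun, phi2_sset]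
  have : sset α none = 1 := rfl
  rw [this]
  push_cast
  ring

end Pool.Agent.Helper37.Voronoi
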