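import Mathlib
import Pool.Agent.Helper37.Voronoi.Assembly

/-!
# The family of lattices
-/

set_option autoImplicit false

namespace Pool.Agent.Helper37.Voronoi

open Module Finset

lemma main_family (n : ℕ) : ∃ (N : ℕ) (B : (Nd n → ℝ) →ₗ[ℝ] EuclideanSpace ℝ (Fin N)),
    N = Fintype.card (Nd n) + Fintype.card (Nd n) ^ 2 ∧ Function.Injective B ∧
    xc (voronoiCell (latOf B)) ≤ 2 * N ∧
    3 ^ n ≤ (xc (voronoiCell (dualLattice (latOf B))) + 1) * 2 ^ n := by
  classical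
  set N := Fintype.card (Nd n ⊕ Nd n × Nd n) with hN
  let e : Fin N ≃ Nd n ⊕ Nd n × Nd n := (Fintype.equivFin _).symm
  have hA : ∀ x y : Nd n, 0 ≤ areal x y := fun x y => by
    simp only [areal]; exact_mod_cast amat_nonneg x y
  have hsym : ∀ x y : Nd n, areal x y = areal y x := fun x y => by
    simp only [areal, amat_symm x y]
  set C0 : ℝ := ∑ x : Nd n, ∑ y : Nd n, areal x y with hC0
  set a0 : Nd n → ℝ := aop areal (toR (kvec (fun _ => false))) with ha0
  set C1 : ℝ := a0 ⬝ᵥ a0 with hC1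
  set K : ℝ := ((∑ x : Nd n, ∑ y : Nd n, amat x y
    + 2 * ∑ b : Fin n → Bool, ∑ x : Nd n, |uvec b x| : ℤ) : ℝ) with hK
  set c : ℝ := (Fintype.card (Nd n) : ℝ) with hc
  set C : ℝ := 1 + C0 + C1 + (K + 2) * (2 + c) with hC
  have hC0' : 0 ≤ C0 := Finset.sum_nonneg (fun x _ => Finset.sum_nonneg (fun y _ => hA x y))
  have hC1' : 0 ≤ C1 := by
    simp only [hC1, dotProduct]; exact Finset.sum_nonneg (fun v _ => mul_self_nonneg _)
  have hK' : 0 ≤ K := by
    have : (0 : ℤ) ≤ ∑ x : Nd n, ∑ y : Nd n, amat x y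
        + 2 * ∑ b : Fin n → Bool, ∑ x : Nd n, |uvec b x| := by
      apply add_nonneg
      · exact Finset.sum_nonneg (fun x _ => Finset.sum_nonneg (fun y _ => amat_nonneg x y))
      · apply mul_nonneg (by norm_num)
        exact Finset.sum_nonneg (fun b _ => Finset.sum_nonneg (fun x _ => abs_nonneg _))
    rw [hK]; exact_mod_cast this
  have hc' : 0 ≤ c := by rw [hc]; positivity
  have hprod : 0 ≤ (K + 2) * (2 + c) := by positivity
  have hCpos : 0 < C := by rw [hC]; linarith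
  set ε : ℝ := 1 / (2 * C) with hεdef
  have hε : 0 < ε := by positivity
  have hεC : ε * C = 1 / 2 := by rw [hεdef]; field_simp
  have hd : ∀ x : Nd n, ε * ∑ y, areal x y ≤ 1 / 2 := by
    intro x
    have h1 : ∑ y, areal x y ≤ C0 :=
      Finset.single_le_sum (f := fun x : Nd n => ∑ y : Nd n, areal x y)
        (fun x _ => Finset.sum_nonneg (fun y _ => hA x y)) (Finset.mem_univ x)
    rw [← hεC]
    apply mul_le_mul_of_nonneg_left _ hε.le
    rw [hC]; linarith
  obtain ⟨M, h1, h2⟩ := exists_inv areal ε hA hsym hε.le hd e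
  have hco := lop_coercive areal ε hA hsym hε.le hd e
  have hinner := netOf_inner e areal ε hA hsym hε.le hd
  have hinj := netOf_injective e areal ε hA hsym hε.le hd
  set G := netOf e areal ε hA hε.le hd with hG
  set δ : ℝ := ε ^ 2 * (a0 ⬝ᵥ M a0) with hδdef
  have hb := inv_quad_bounds h1 hco a0
  have hδ0 : 0 ≤ δ := mul_nonneg (sq_nonneg _) hb.1
  have hεC1 : ε * C1 ≤ 1 / 2 := by
    rw [← hεC]
    apply mul_le_mul_of_nonneg_left _ hε.le
    rw [hC]; linarith
  have hδ : δ ≤ 2 * ε := by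
    calc δ ≤ ε ^ 2 * (2 * C1) := mul_le_mul_of_nonneg_left hb.2 (sq_nonneg _)
      _ = 2 * ε * (ε * C1) := by ring
      _ ≤ 2 * ε * (1 / 2) := by gcongr
      _ ≤ 2 * ε := by linarith
  have hsmall : (ε * K + δ) * (2 + Fintype.card (Nd n)) ≤ 1 := by
    calc (ε * K + δ) * (2 + c) ≤ (ε * K + 2 * ε) * (2 + c) := by gcongr
      _ = ε * ((K + 2) * (2 + c)) := by ring
      _ ≤ ε * C := by
          apply mul_le_mul_of_nonneg_left _ hε.le
          rw [hC]; linarith
      _ ≤ 1 := by rw [hεC]; norm_num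
  have hKb : ∀ (b : Fin n → Bool) (m : Nd n → ℤ), |(phi2 b m : ℝ)| ≤ K * ∑ x, (m x : ℝ) ^ 2 := by
    intro b m
    have := phi2_abs_le b m
    rw [hK]
    exact_mod_cast this
  have hnn := slack_nonneg (n := n) ε δ hε hδ0 hδ M h1 h2
    (fun x => (inv_quad_bounds h1 hco x).1) hδdef K hKb hsmall
  have hkv := slack_kvec (n := n) ε δ M h1 h2 hδdef
  -- the dual lattice
  have hdual : dualLattice (latOf G.map) = latOf (G.map ∘ₗ M) :=
    dual_eq G.map (lop areal ε) M hinner h1 h2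
  have hMinj : Function.Injective M := by
    intro x y hxy
    rw [← h1 x, ← h1 y, hxy]
  have hinj2 : Function.Injective (G.map ∘ₗ M) := by
    rw [LinearMap.coe_comp]
    exact hinj.comp hMinj
  -- inner products
  have hip : ∀ v k : Nd n → ℝ, inner ℝ (G.map v) (G.map (M k)) = v ⬝ᵥ k := by
    intro v k
    rw [hinner, h1]
  have hnorm : ∀ k : Nd n → ℝ, ‖G.map (M k)‖ ^ 2 = k ⬝ᵥ M k := by
    intro k
    rw [← real_inner_self_eq_norm_sq, hip, dotProduct_comm]
  refine ⟨N, G.map, ?_, hinj, G.xc_le, ?_⟩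
  · rw [hN]
    simp only [Fintype.card_sum, Fintype.card_prod]
    ring
  · rw [hdual]
    apply xc_lower (voronoiCell (latOf (G.map ∘ₗ M))) (isPolytope_voronoi _ hinj2)
      (fun b => G.map (vvec ε δ b))
      ?_ (fun a => (innerSL ℝ (G.map (M (toR (kvec a))))).toLinearMap)
      (fun a => ‖G.map (M (toR (kvec a)))‖ ^ 2 / 2) ?_ ?_ ?_
    · intro b
      refine ⟨?_, ?_⟩
      · rw [span_latOf]
        refine ⟨lop areal ε (vvec ε δ b), ?_⟩
        rw [LinearMap.comp_apply, h2]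
      · rintro _ ⟨k, rfl⟩
        rw [norm_le_sub_iff, LinearMap.comp_apply]
        change 2 * inner ℝ (G.map (vvec ε δ b)) (G.map (M (toR k))) ≤ ‖G.map (M (toR k))‖ ^ 2
        rw [hip, hnorm]
        have := hnn b k
        linarith
    · rintro a y ⟨_, hy⟩
      have h3 := (norm_le_sub_iff _ _).1 (hy _ ⟨kvec a, rfl⟩)
      rw [LinearMap.comp_apply] at h3
      change 2 * inner ℝ y (G.map (M (toR (kvec a)))) ≤ ‖G.map (M (toR (kvec a)))‖ ^ 2 at h3
      change inner ℝ (G.map (M (toR (kvec a)))) y ≤ ‖G.map (M (toR (kvec a)))‖ ^ 2 / 2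
      rw [real_inner_comm]
      linarith
    · intro a b hab
      have h3 := hkv a b
      rw [hab] at h3
      change inner ℝ (G.map (M (toR (kvec a)))) (G.map (vvec ε δ b))
        = ‖G.map (M (toR (kvec a)))‖ ^ 2 / 2
      rw [real_inner_comm, hip, hnorm]
      norm_num at h3
      linarith
    · intro a b hab
      have h3 := hkv a b
      rw [hab] at h3
      change inner ℝ (G.map (M (toR (kvec a)))) (G.map (vvec ε δ b))
        < ‖G.map (M (toR (kvec a)))‖ ^ 2 / 2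
      rw [real_inner_comm, hip, hnorm]
      norm_num at h3
      linarith

lemma card_nd (n : ℕ) : Fintype.card (Nd n) = 4 * n ^ 2 + 2 * n + 1 := by
  simp only [Fintype.card_option, Fintype.card_sum, Fintype.card_prod, Fintype.card_fin,
    Fintype.card_bool]
  ring

/-- the family, in coordinates -/
lemma family_fin (n : ℕ) : ∃ (N : ℕ) (B : (Fin (4 * n ^ 2 + 2 * n + 1) → ℝ) →ₗ[ℝ]
      EuclideanSpace ℝ (Fin N)), Function.Injective B ∧
    xc (voronoiCell (latOf B))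
      ≤ 2 * ((4 * n ^ 2 + 2 * n + 1) + (4 * n ^ 2 + 2 * n + 1) ^ 2) ∧
    (3 / 2 : ℝ) ^ n ≤ (xc (voronoiCell (dualLattice (latOf B))) : ℝ) + 1 := by
  obtain ⟨N, B, hN, hB, hup, hlow⟩ := main_family n
  let e : Nd n ≃ Fin (4 * n ^ 2 + 2 * n + 1) := Fintype.equivFinOfCardEq (card_nd n)
  let B' : (Fin (4 * n ^ 2 + 2 * n + 1) → ℝ) →ₗ[ℝ] EuclideanSpace ℝ (Fin N) :=
    B ∘ₗ (LinearMap.funLeft ℝ ℝ e)
  have hlat : latOf B' = latOf B := by
    ext z
    constructor
    · rintro ⟨k, rfl⟩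
      exact ⟨k ∘ e, rfl⟩
    · rintro ⟨k, rfl⟩
      refine ⟨k ∘ e.symm, ?_⟩
      change _ = B _
      congr 1
      funext v
      simp [LinearMap.funLeft_apply]
  refine ⟨N, B', ?_, ?_, ?_⟩
  · rw [LinearMap.coe_comp]
    exact hB.comp (LinearMap.funLeft_injective_of_surjective ℝ ℝ e e.surjective)
  · rw [hlat]
    rw [card_nd] at hN
    exact hup.trans (Nat.mul_le_mul_left 2 hN.le)
  · rw [hlat]
    have h2 : (0 : ℝ) < 2 ^ n := by positivity
    rw [div_pow, div_le_iff₀ h2]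
    exact_mod_cast hlow

open Filter Topology in
/-- polynomials do not bound exponentials -/
lemma not_poly_bound (p : Polynomial ℝ) (X Y : ℕ → ℝ) (hX0 : ∀ n, 0 ≤ X n)
    (hX : ∀ n : ℕ, X n ≤ 64 * ((n : ℝ) + 1) ^ 4) (hY : ∀ n : ℕ, (3 / 2 : ℝ) ^ n ≤ Y n + 1) :
    ¬ ∀ n, Y n ≤ p.eval (X n) := by
  intro hle
  set k := p.natDegree
  set S : ℝ := ∑ i ∈ Finset.range (k + 1), |p.coeff i| with hS
  have hS0 : 0 ≤ S := Finset.sum_nonneg (fun i _ => abs_nonneg _)
  have hev : ∀ x : ℝ, 0 ≤ x → p.eval x ≤ S * (1 + x) ^ k := by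
    intro x hx
    rw [Polynomial.eval_eq_sum_range, hS, Finset.sum_mul]
    apply Finset.sum_le_sum
    intro i hi
    have hi' : i ≤ k := by
      have := Finset.mem_range.1 hi
      omega
    calc p.coeff i * x ^ i ≤ |p.coeff i| * x ^ i := by
          apply mul_le_mul_of_nonneg_right (le_abs_self _) (by positivity)
      _ ≤ |p.coeff i| * (1 + x) ^ i := by gcongr; linarith
      _ ≤ |p.coeff i| * (1 + x) ^ k := by gcongr; linarith
  -- combine
  have hmain : ∀ n : ℕ, (3 / 2 : ℝ) ^ n ≤ (S * 65 ^ k + 1) * ((n : ℝ) + 1) ^ (4 * k) := by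
    intro n
    have h1 : (1 : ℝ) ≤ ((n : ℝ) + 1) := by
      have : (0 : ℝ) ≤ n := by positivity
      linarith
    have h2 : 1 + X n ≤ 65 * ((n : ℝ) + 1) ^ 4 := by
      have h3 : (1 : ℝ) ≤ ((n : ℝ) + 1) ^ 4 := one_le_pow₀ h1
      linarith [hX n]
    calc (3 / 2 : ℝ) ^ n ≤ Y n + 1 := hY n
      _ ≤ p.eval (X n) + 1 := by linarith [hle n]
      _ ≤ S * (1 + X n) ^ k + 1 := by linarith [hev (X n) (hX0 n)]
      _ ≤ S * (65 * ((n : ℝ) + 1) ^ 4) ^ k + 1 := by
          have := hX0 n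
          gcongr
      _ = S * 65 ^ k * ((n : ℝ) + 1) ^ (4 * k) + 1 := by
          rw [mul_pow, ← pow_mul]; ring
      _ ≤ (S * 65 ^ k + 1) * ((n : ℝ) + 1) ^ (4 * k) := by
          have h3 : (1 : ℝ) ≤ ((n : ℝ) + 1) ^ (4 * k) := one_le_pow₀ h1
          linarith
  have hlim := tendsto_pow_const_div_const_pow_of_one_lt (4 * k) (by norm_num : (1 : ℝ) < 3 / 2)
  have hlim2 := hlim.comp (tendsto_add_atTop_nat 1)
  have hT : 0 < S * 65 ^ k + 1 := by positivity
  have hlow : ∀ n : ℕ, (2 / 3) / (S * 65 ^ k + 1)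
      ≤ ((fun n : ℕ => (n : ℝ) ^ (4 * k) / (3 / 2 : ℝ) ^ n) ∘ fun a => a + 1) n := by
    intro n
    simp only [Function.comp_apply]
    rw [div_le_div_iff₀ hT (by positivity)]
    have := hmain n
    push_cast
    calc (2 / 3 : ℝ) * (3 / 2) ^ (n + 1) = (3 / 2) ^ n := by rw [pow_succ]; ring
      _ ≤ _ := by rw [mul_comm]; exact this
  have := ge_of_tendsto' hlim2 hlow
  have hpos : 0 < (2 / 3 : ℝ) / (S * 65 ^ k + 1) := by positivity
  linarith

end Pool.Agent.Helper37.Voronoi
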